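import Mathlib

universe u

namespace Pool.Agent.Results.MP_4f7796_ag.RationalCurveThroughPoint

section Part1

open Polynomial


section Basic
variable {A : Type*} [CommRing A]

/-- The binary cubic form. -/
def c0 (c : Fin 10 → A) (x y : A) : A :=
  c 0 * x ^ 3 + c 1 * x ^ 2 * y + c 2 * x * y ^ 2 + c 3 * y ^ 3

/-- The ternary cubic form. -/
def c3 (c : Fin 10 → A) (x y z : A) : A :=
  c 0 * x ^ 3 + c 1 * x ^ 2 * y + c 2 * x * y ^ 2 + c 3 * y ^ 3
    + c 4 * x ^ 2 * z + c 5 * x * y * z + c 6 * y ^ 2 * z + c 7 * x * z ^ 2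
    + c 8 * y * z ^ 2 + c 9 * z ^ 3

/-- The cubic form `z w^2 + m z^2 w + c(x,y,z)`. -/
def cub (m : A) (c : Fin 10 → A) (P : Fin 4 → A) : A :=
  P 2 * P 3 ^ 2 + m * P 2 ^ 2 * P 3 + c3 c (P 0) (P 1) (P 2)

/-- directional derivative of `cub` at `P` in direction `Q` -/
def dcub (m : A) (c : Fin 10 → A) (P Q : Fin 4 → A) : A :=
  Q 0 * (3 * c 0 * P 0 ^ 2 + 2 * c 1 * P 0 * P 1 + c 2 * P 1 ^ 2 + 2 * c 4 * P 0 * P 2
      + c 5 * P 1 * P 2 + c 7 * P 2 ^ 2)
  + Q 1 * (c 1 * P 0 ^ 2 + 2 * c 2 * P 0 * P 1 + 3 * c 3 * P 1 ^ 2 + c 5 * P 0 * P 2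
      + 2 * c 6 * P 1 * P 2 + c 8 * P 2 ^ 2)
  + Q 2 * (c 4 * P 0 ^ 2 + c 5 * P 0 * P 1 + c 6 * P 1 ^ 2 + 2 * c 7 * P 0 * P 2
      + 2 * c 8 * P 1 * P 2 + 3 * c 9 * P 2 ^ 2 + P 3 ^ 2 + 2 * m * P 2 * P 3)
  + Q 3 * (2 * P 2 * P 3 + m * P 2 ^ 2)

theorem cub_comb (m : A) (c : Fin 10 → A) (P Q : Fin 4 → A) (a b : A) :
    cub m c (a • P + b • Q) = a ^ 3 * cub m c P + a ^ 2 * b * dcub m c P Q
      + a * b ^ 2 * dcub m c Q P + b ^ 3 * cub m c Q := by
  simp only [cub, dcub, c3, Pi.add_apply, Pi.smul_apply, smul_eq_mul]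
  ring

theorem cub_smul (m : A) (c : Fin 10 → A) (P : Fin 4 → A) (a : A) :
    cub m c (a • P) = a ^ 3 * cub m c P := by
  simp only [cub, c3, Pi.smul_apply, smul_eq_mul]
  ring

theorem third_point (m : A) (c : Fin 10 → A) (P Q : Fin 4 → A)
    (hP : cub m c P = 0) (hQ : cub m c Q = 0) :
    cub m c (dcub m c Q P • P - dcub m c P Q • Q) = 0 := by
  have := cub_comb m c P Q (dcub m c Q P) (-dcub m c P Q)
  rw [hP, hQ] at this
  rw [sub_eq_add_neg, ← neg_smul, this]
  ring

end Basic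

end Part1

section Part2

open Polynomial


theorem dcub_self {A : Type*} [CommRing A] (m : A) (c : Fin 10 → A) (P : Fin 4 → A) :
    dcub m c P P = 3 * cub m c P := by
  simp only [cub, dcub, c3]
  ring

theorem dcub_sub {A : Type*} [CommRing A] (m : A) (c : Fin 10 → A) (P Q R : Fin 4 → A) :
    dcub m c P (Q - R) = dcub m c P Q - dcub m c P R := by
  simp only [dcub, Pi.sub_apply]
  ring

theorem map_cub {A B : Type*} [CommRing A] [CommRing B] (f : A →+* B) (m : A)
    (c : Fin 10 → A) (P : Fin 4 → A) :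
    f (cub m c P) = cub (f m) (fun i => f (c i)) (fun i => f (P i)) := by
  simp only [cub, c3, map_add, map_mul, map_pow]

theorem map_dcub {A B : Type*} [CommRing A] [CommRing B] (f : A →+* B) (m : A)
    (c : Fin 10 → A) (P Q : Fin 4 → A) :
    f (dcub m c P Q) = dcub (f m) (fun i => f (c i)) (fun i => f (P i)) (fun i => f (Q i)) := by
  simp only [dcub, map_add, map_mul, map_pow, map_ofNat]

theorem map_c0 {A B : Type*} [CommRing A] [CommRing B] (f : A →+* B)
    (c : Fin 10 → A) (x y : A) :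
    f (c0 c x y) = c0 (fun i => f (c i)) (f x) (f y) := by
  simp only [c0, map_add, map_mul, map_pow]

/-- Local part of the descent. -/
theorem descent_local {L : Type*} [Field L] (ψ : L →+* L) (m : L) (c : Fin 10 → L)
    (hm : ψ m = m) (hc : ∀ i, ψ (c i) = c i)
    (Z1 : ∀ a b, ψ a = a → ψ b = b → c0 c a b = 0 → a = 0 ∧ b = 0)
    (p q : Fin 4 → L[X]) (hpq : ∀ i, (p i).map ψ = q i) (hqp : ∀ i, (q i).map ψ = p i)
    (hFp : cub (C m) (fun i => C (c i)) p = 0)
    (hp : ∀ i, i ≠ 3 → (p i).eval 0 = 0) (hp3 : (p 3).eval 0 = 1) (h3 : p 3 = q 3)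
    (hmin : ∃ i j : Fin 4, i ≠ 3 ∧ j ≠ 3 ∧ p i * q j - p j * q i ≠ 0) :
    ∃ R : Fin 4 → L[X], (∀ i, (R i).map ψ = R i) ∧ cub (C m) (fun i => C (c i)) R = 0 ∧
      (∀ i, i ≠ 3 → (R i).eval 0 = 0) ∧ (R 3).eval 0 = 1 ∧ ∃ i, i ≠ 3 ∧ R i ≠ 0 := by
  set M : L[X] := C m with hM
  set cc : Fin 10 → L[X] := fun i => C (c i) with hcc
  set Ψ : L[X] →+* L[X] := mapRingHom ψ with hΨ
  have hΨM : Ψ M = M := by simp [hΨ, hM, hm]
  have hΨc : (fun i => Ψ (cc i)) = cc := by
    funext i; simp [hΨ, hcc, hc]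
  have hΨp : ∀ i, Ψ (p i) = q i := fun i => by simpa [hΨ] using hpq i
  have hΨq : ∀ i, Ψ (q i) = p i := fun i => by simpa [hΨ] using hqp i
  have hFq : cub M cc q = 0 := by
    have := map_cub Ψ M cc p
    rw [hFp, map_zero, hΨM, hΨc] at this
    have e : (fun i => Ψ (p i)) = q := funext hΨp
    rw [e] at this
    exact this.symm
  have hq : ∀ i, i ≠ 3 → (q i).eval 0 = 0 := by
    intro i hi
    rw [← hpq i]
    have : (p i).coeff 0 = 0 := by rw [← hp i hi, coeff_zero_eq_eval_zero]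
    rw [← coeff_zero_eq_eval_zero, coeff_map, this, map_zero]
  -- divisibility by X
  have hXp : ∀ i, i ≠ 3 → ∃ a, p i = X * a := by
    intro i hi
    have : X ∣ p i := by rw [X_dvd_iff, coeff_zero_eq_eval_zero, hp i hi]
    exact this
  have hXq : ∀ i, i ≠ 3 → ∃ a, q i = X * a := by
    intro i hi
    have : X ∣ q i := by rw [X_dvd_iff, coeff_zero_eq_eval_zero, hq i hi]
    exact this
  obtain ⟨a0, ha0⟩ := hXp 0 (by decide)
  obtain ⟨a1, ha1⟩ := hXp 1 (by decide)
  obtain ⟨a2, ha2⟩ := hXp 2 (by decide)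
  obtain ⟨b0, hb0⟩ := hXq 0 (by decide)
  obtain ⟨b1, hb1⟩ := hXq 1 (by decide)
  obtain ⟨b2, hb2⟩ := hXq 2 (by decide)
  set W := p 3 with hW
  -- the relation for d2
  set d : Fin 4 → L[X] := p - q with hd
  have hd0 : d 0 = p 0 - q 0 := rfl
  have hd1 : d 1 = p 1 - q 1 := rfl
  have hd2 : d 2 = p 2 - q 2 := rfl
  have hd3 : d 3 = 0 := by
    show p 3 - q 3 = 0
    exact sub_eq_zero.mpr h3
  set E0 : L[X] := cc 0 * (a0 ^ 2 + a0 * b0 + b0 ^ 2) + cc 1 * (a0 + b0) * a1 + cc 2 * a1 ^ 2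
    + cc 4 * (a0 + b0) * a2 + cc 5 * a1 * a2 + cc 7 * a2 ^ 2 with hE0
  set E1 : L[X] := cc 1 * b0 ^ 2 + cc 2 * b0 * (a1 + b1) + cc 3 * (a1 ^ 2 + a1 * b1 + b1 ^ 2)
    + cc 5 * b0 * a2 + cc 6 * (a1 + b1) * a2 + cc 8 * a2 ^ 2 with hE1
  set E2 : L[X] := cc 4 * b0 ^ 2 + cc 5 * b0 * b1 + cc 6 * b1 ^ 2 + cc 7 * b0 * (a2 + b2)
    + cc 8 * b1 * (a2 + b2) + cc 9 * (a2 ^ 2 + a2 * b2 + b2 ^ 2) with hE2
  set U : L[X] := W ^ 2 + M * X * (a2 + b2) * W + X ^ 2 * E2 with hU
  have hrel : U * d 2 = - (X ^ 2 * (d 0 * E0 + d 1 * E1)) := by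
    have h1 : cub M cc p - cub M cc q = 0 := by rw [hFp, hFq, sub_self]
    simp only [cub, c3, ← h3] at h1
    rw [ha0, ha1, ha2, hb0, hb1, hb2, ← hW] at h1
    rw [hd0, hd1, hd2, ha0, ha1, ha2, hb0, hb1, hb2]
    linear_combination h1
  have hU0 : U.eval 0 = 1 := by
    simp [hU, hp3]
  have hUne : U ≠ 0 := by
    intro h; rw [h] at hU0; simp at hU0
  have hcop : IsCoprime (X : L[X]) U := by
    rw [Polynomial.irreducible_X.coprime_iff_not_dvd, X_dvd_iff, coeff_zero_eq_eval_zero, hU0]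
    exact one_ne_zero
  -- d0,d1 not both zero
  have hd01 : ¬ (d 0 = 0 ∧ d 1 = 0) := by
    rintro ⟨h0, h1⟩
    have h2 : d 2 = 0 := by
      have : U * d 2 = 0 := by rw [hrel, h0, h1]; ring
      exact (mul_eq_zero.mp this).resolve_left hUne
    have hpq' : p = q := by
      funext i
      fin_cases i
      · exact sub_eq_zero.mp h0
      · exact sub_eq_zero.mp h1
      · exact sub_eq_zero.mp h2
      · exact h3
    obtain ⟨i, j, -, -, hij⟩ := hmin
    apply hij
    rw [hpq']; ring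
  -- multiplicity
  have hex : ∃ k : ℕ, ¬ (X ^ (k + 1) ∣ d 0 ∧ X ^ (k + 1) ∣ d 1) := by
    by_contra hcon
    push Not at hcon
    apply hd01
    constructor
    · by_contra hne
      have := (hcon (d 0).natDegree).1
      have hle := natDegree_le_of_dvd this hne
      simp at hle
    · by_contra hne
      have := (hcon (d 1).natDegree).2
      have hle := natDegree_le_of_dvd this hne
      simp at hle
  classical
  obtain ⟨k, hk, hkmin⟩ : ∃ k : ℕ, ¬ (X ^ (k + 1) ∣ d 0 ∧ X ^ (k + 1) ∣ d 1) ∧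
      (X ^ k ∣ d 0 ∧ X ^ k ∣ d 1) := by
    refine ⟨Nat.find hex, Nat.find_spec hex, ?_⟩
    rcases Nat.eq_zero_or_pos (Nat.find hex) with h0 | hpos
    · rw [h0]; simp
    · have := Nat.find_min hex (show Nat.find hex - 1 < Nat.find hex by omega)
      rw [not_not, show Nat.find hex - 1 + 1 = Nat.find hex by omega] at this
      exact this
  obtain ⟨j, rfl⟩ : ∃ j, k = j + 1 := by
    rcases k with _ | j
    · exfalso
      apply hk
      constructor
      · rw [zero_add, pow_one, hd0, ha0, hb0, ← mul_sub]; exact dvd_mul_right _ _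
      · rw [zero_add, pow_one, hd1, ha1, hb1, ← mul_sub]; exact dvd_mul_right _ _
    · exact ⟨j, rfl⟩
  obtain ⟨⟨e0, he0⟩, ⟨e1, he1⟩⟩ := hkmin
  have hd2dvd : X ^ (j + 2) ∣ d 2 := by
    have h1 : X ^ (j + 2) ∣ U * d 2 := by
      rw [hrel, he0, he1]
      refine (dvd_neg).mpr ⟨X * (e0 * E0 + e1 * E1), by ring⟩
    exact (hcop.pow_left).dvd_of_dvd_mul_left h1
  obtain ⟨e2, he2⟩ := hd2dvd
  have hε : ¬ (e0.eval 0 = 0 ∧ e1.eval 0 = 0) := by
    rintro ⟨h0, h1⟩
    apply hk
    rw [← coeff_zero_eq_eval_zero, ← X_dvd_iff] at h0 h1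
    obtain ⟨f0, rfl⟩ := h0
    obtain ⟨f1, rfl⟩ := h1
    exact ⟨⟨f0, by rw [he0]; ring⟩, ⟨f1, by rw [he1]; ring⟩⟩
  -- sign of e
  have hΨd : ∀ i, Ψ (d i) = - d i := by
    intro i
    show Ψ (p i - q i) = - (p i - q i)
    rw [map_sub, hΨp, hΨq]; ring
  have hΨX : Ψ X = X := by simp [hΨ]
  have hΨe0 : Ψ e0 = - e0 := by
    have h := hΨd 0
    rw [he0, map_mul, map_pow, hΨX, ← mul_neg] at h
    exact mul_left_cancel₀ (pow_ne_zero _ X_ne_zero) h
  have hΨe1 : Ψ e1 = - e1 := by
    have h := hΨd 1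
    rw [he1, map_mul, map_pow, hΨX, ← mul_neg] at h
    exact mul_left_cancel₀ (pow_ne_zero _ X_ne_zero) h
  have evΨ : ∀ g : L[X], (Ψ g).eval 0 = ψ (g.eval 0) := by
    intro g
    simp only [hΨ, coe_mapRingHom]
    rw [← coeff_zero_eq_eval_zero, coeff_map, coeff_zero_eq_eval_zero]
  set ε0 := e0.eval 0 with hε0
  set ε1 := e1.eval 0 with hε1
  have hψε0 : ψ ε0 = - ε0 := by rw [hε0, ← evΨ, hΨe0, eval_neg]
  have hψε1 : ψ ε1 = - ε1 := by rw [hε1, ← evΨ, hΨe1, eval_neg]
  have hlam : c0 c ε0 ε1 ≠ 0 := by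
    intro h0
    by_cases h1 : ε1 = 0
    · rw [h1] at h0
      have hc0 : c 0 ≠ 0 := by
        intro hc0
        have := Z1 1 0 (map_one ψ) (map_zero ψ) (by simp [c0, hc0])
        exact one_ne_zero this.1
      have : ε0 = 0 := by
        have h2 : c 0 * ε0 ^ 3 = 0 := by simpa [c0] using h0
        rcases mul_eq_zero.mp h2 with h | h
        · exact absurd h hc0
        · exact pow_eq_zero_iff (by norm_num) |>.mp h
      exact hε ⟨this, h1⟩
    · have h2 : c0 c (ε0 / ε1) 1 = 0 := by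
        have h3 : c0 c (ε0 / ε1) 1 = c0 c ε0 ε1 / ε1 ^ 3 := by
          simp only [c0]; field_simp
        rw [h3, h0, zero_div]
      have := Z1 (ε0 / ε1) 1 (by rw [map_div₀, hψε0, hψε1, neg_div_neg_eq]) (map_one ψ) h2
      exact one_ne_zero this.2
  set lam := c0 c ε0 ε1 with hlamdef
  have hψlam : ψ lam = - lam := by
    rw [hlamdef, map_c0]
    have : (fun i => ψ (c i)) = c := funext hc
    rw [this, hψε0, hψε1]
    simp only [c0]; ring
  -- the vector R
  set R : Fin 4 → L[X] := dcub M cc q p • p - dcub M cc p q • q with hR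
  have hFR : cub M cc R = 0 := third_point M cc p q hFp hFq
  have hΨR : ∀ i, Ψ (R i) = - R i := by
    intro i
    simp only [hR, Pi.sub_apply, Pi.smul_apply, smul_eq_mul, map_sub, map_mul, map_dcub, hΨM, hΨc,
      hΨp, hΨq]
    ring
  have hDd : dcub M cc p q = - dcub M cc p d := by
    have h1 : dcub M cc p d = dcub M cc p p - dcub M cc p q := dcub_sub M cc p p q
    rw [dcub_self, hFp] at h1
    rw [h1]; ring
  have hDqp : dcub M cc q p = cub M cc d + dcub M cc p q := by
    have h1 := cub_comb M cc p q 1 (-1)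
    have h2 : (1 : L[X]) • p + (-1 : L[X]) • q = d := by
      rw [hd, one_smul, neg_one_smul, sub_eq_add_neg]
    rw [h2, hFp, hFq] at h1
    rw [h1]; ring
  have hDpd : dcub M cc p d = dcub M cc d p - cub M cc d := by
    have h1 := cub_comb M cc p d 1 (-1)
    have h2 : (1 : L[X]) • p + (-1 : L[X]) • d = q := by
      rw [hd, one_smul, neg_one_smul]; abel
    rw [h2, hFp, hFq] at h1
    linear_combination h1
  have hRd : R = cub M cc d • p - dcub M cc p d • d := by
    rw [hR, hDqp, hDd, hd]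
    funext i
    simp only [Pi.sub_apply, Pi.smul_apply, smul_eq_mul]
    ring
  set G : L[X] := c3 cc e0 e1 (X * e2) with hG
  have hFd : cub M cc d = X ^ (3 * (j + 1)) * G := by
    simp only [cub, hG, c3, hd3, he0, he1, he2]
    ring
  set H : L[X] := a0 * (3 * cc 0 * e0 ^ 2 + 2 * cc 1 * e0 * e1 + cc 2 * e1 ^ 2
      + 2 * cc 4 * e0 * (X * e2) + cc 5 * e1 * (X * e2) + cc 7 * (X * e2) ^ 2)
    + a1 * (cc 1 * e0 ^ 2 + 2 * cc 2 * e0 * e1 + 3 * cc 3 * e1 ^ 2 + cc 5 * e0 * (X * e2)
      + 2 * cc 6 * e1 * (X * e2) + cc 8 * (X * e2) ^ 2)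
    + a2 * (cc 4 * e0 ^ 2 + cc 5 * e0 * e1 + cc 6 * e1 ^ 2 + 2 * cc 7 * e0 * (X * e2)
      + 2 * cc 8 * e1 * (X * e2) + 3 * cc 9 * (X * e2) ^ 2)
    + W * M * X * e2 ^ 2 with hH
  have hDdp : dcub M cc d p = X ^ (2 * (j + 1) + 1) * H := by
    simp only [dcub, hH, hd3, he0, he1, he2, ha0, ha1, ha2, ← hW]
    ring
  set E : L[X] := H - X ^ j * G with hE
  have hDpd' : dcub M cc p d = X ^ (2 * (j + 1) + 1) * E := by
    rw [hDpd, hDdp, hFd, hE]; ring
  set e : Fin 4 → L[X] := ![e0, e1, X * e2, 0] with he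
  set R' : Fin 4 → L[X] := G • p - (X * E) • e with hR'
  have hde : d = (X ^ (j + 1) : L[X]) • e := by
    funext i
    fin_cases i
    · simpa [he] using he0
    · simpa [he] using he1
    · simp only [he, Pi.smul_apply, smul_eq_mul]
      show d 2 = X ^ (j + 1) * (X * e2)
      rw [he2]; ring
    · simpa [he] using hd3
  have hRR' : R = (X ^ (3 * (j + 1)) : L[X]) • R' := by
    rw [hRd, hFd, hDpd', hR']
    conv_lhs => rw [hde]
    funext i
    simp only [Pi.sub_apply, Pi.smul_apply, smul_eq_mul]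
    ring
  have hXne : (X ^ (3 * (j + 1)) : L[X]) ≠ 0 := pow_ne_zero _ X_ne_zero
  have hΨR' : ∀ i, Ψ (R' i) = - R' i := by
    intro i
    have h := hΨR i
    rw [hRR'] at h
    simp only [Pi.smul_apply, smul_eq_mul, map_mul, map_pow, hΨX, ← mul_neg] at h
    exact mul_left_cancel₀ hXne h
  have hFR' : cub M cc R' = 0 := by
    have h := hFR
    rw [hRR', cub_smul] at h
    exact (mul_eq_zero.mp h).resolve_left (pow_ne_zero _ hXne)
  have hGe : G.eval 0 = lam := by
    simp [hG, c3, hlamdef, c0, hcc, hε0, hε1]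
  refine ⟨(C lam⁻¹ : L[X]) • R', ?_, ?_, ?_, ?_, ?_⟩
  · intro i
    have h := hΨR' i
    simp only [hΨ, coe_mapRingHom] at h
    simp only [Pi.smul_apply, smul_eq_mul, Polynomial.map_mul, map_C, map_inv₀, hψlam, h]
    rw [inv_neg, map_neg]; ring
  · rw [cub_smul, hFR', mul_zero]
  · intro i hi
    simp only [Pi.smul_apply, smul_eq_mul, eval_mul, hR', Pi.sub_apply, eval_sub, eval_X, hp i hi]
    ring
  · simp only [Pi.smul_apply, smul_eq_mul, eval_mul, hR', Pi.sub_apply, eval_sub, eval_X, ← hW,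
      hp3, hGe, eval_C]
    field_simp
    ring
  · by_contra hcon
    push Not at hcon
    have hz : ∀ i, i ≠ 3 → R i = 0 := by
      intro i hi
      have h := hcon i hi
      simp only [Pi.smul_apply, smul_eq_mul] at h
      have h2 : R' i = 0 := by
        refine (mul_eq_zero.mp h).resolve_left ?_
        simpa using inv_ne_zero hlam
      rw [hRR']
      simp [h2]
    obtain ⟨i, l, hi, hl, hil⟩ := hmin
    apply hil
    have h1 := hz i hi
    have h2 := hz l hl
    simp only [hR, Pi.sub_apply, Pi.smul_apply, smul_eq_mul] at h1 h2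
    have h3' : cub M cc d * (p i * q l - p l * q i) = 0 := by
      have h4 : cub M cc d = dcub M cc q p - dcub M cc p q := by rw [hDqp]; ring
      rw [h4]
      linear_combination (q l - p l) * h1 - (q i - p i) * h2
    refine (mul_eq_zero.mp h3').resolve_left ?_
    rw [hFd]
    refine mul_ne_zero hXne ?_
    intro h
    rw [h, eval_zero] at hGe
    exact hlam hGe.symm

end Part2

section Part3

open Polynomial


/-- From vanishing for all substitutions `X^(N+1)+ωX` to vanishing for independent arguments. -/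
theorem indep_of_subst {L : Type*} [Field L] (ω ω' : L) (hω : ω' ≠ ω) (f f' g g' : L[X])
    (h : ∀ N : ℕ, f.comp (X ^ (N + 1) + C ω * X) * g.comp (X ^ (N + 1) + C ω' * X)
      = f'.comp (X ^ (N + 1) + C ω * X) * g'.comp (X ^ (N + 1) + C ω' * X)) (T S : L) :
    f.eval T * g.eval S = f'.eval T * g'.eval S := by
  let lift : L[X] → L → L[X][X] := fun f w => (f.map C).comp (X + C (C w * X))
  have hev : ∀ (f : L[X]) (w : L) (y : L[X]), (lift f w).eval y = f.comp (y + C w * X) := by
    intro f w y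
    simp only [lift, eval_comp, eval_add, eval_X, eval_C]
    rw [eval_map]
    rfl
  set G : L[X][X] := lift f ω * lift g ω' - lift f' ω * lift g' ω' with hG
  have hG0 : G = 0 := by
    apply Polynomial.eq_zero_of_infinite_isRoot
    have hinj : Function.Injective (fun N : ℕ => (X ^ (N + 1) : L[X])) := by
      intro a b hab
      have := congrArg natDegree hab
      simpa using this
    refine Set.Infinite.mono ?_ (Set.infinite_range_of_injective hinj)
    rintro _ ⟨N, rfl⟩
    show G.eval _ = 0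
    rw [hG, eval_sub, eval_mul, eval_mul, hev, hev, hev, hev, h N, sub_self]
  have hne : ω - ω' ≠ 0 := sub_ne_zero.mpr (Ne.symm hω)
  set x0 : L := (T - S) / (ω - ω') with hx0
  set y0 : L := T - ω * x0 with hy0
  have hT : y0 + ω * x0 = T := by rw [hy0]; ring
  have hS : y0 + ω' * x0 = S := by
    rw [hy0, hx0]; field_simp; ring
  have h1 : (G.eval (C y0)).eval x0 = 0 := by rw [hG0]; simp
  rw [hG, eval_sub, eval_mul, eval_mul, hev, hev, hev, hev] at h1
  simp only [eval_sub, eval_mul, eval_comp, eval_add, eval_C, eval_X, hT, hS] at h1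
  exact sub_eq_zero.mp h1

theorem descent_step {L : Type*} [Field L] [Infinite L] (ψ : L →+* L) (m : L) (c : Fin 10 → L)
    (hm : ψ m = m) (hc : ∀ i, ψ (c i) = c i)
    (Z1 : ∀ a b, ψ a = a → ψ b = b → c0 c a b = 0 → a = 0 ∧ b = 0)
    (Z2 : ∀ a b, ψ (ψ a) = a → ψ (ψ b) = b → c0 c a b = 0 → a = 0 ∧ b = 0)
    (ω : L) (hω2 : ψ (ψ ω) = ω) (hω : ψ ω ≠ ω)
    (P : Fin 4 → L[X]) (hPψ : ∀ i, ((P i).map ψ).map ψ = P i)
    (hF : cub (C m) (fun i => C (c i)) P = 0)
    (h0 : ∀ i, i ≠ 3 → (P i).eval 0 = 0) (h3 : (P 3).eval 0 = 1) (hne : ∃ i, i ≠ 3 ∧ P i ≠ 0) :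
    ∃ R : Fin 4 → L[X], (∀ i, (R i).map ψ = R i) ∧ cub (C m) (fun i => C (c i)) R = 0 ∧
      (∀ i, i ≠ 3 → (R i).eval 0 = 0) ∧ (R 3).eval 0 = 1 ∧ ∃ i, i ≠ 3 ∧ R i ≠ 0 := by
  set Q : Fin 4 → L[X] := fun i => (P i).map ψ with hQ
  have key : ∃ N : ℕ, ∃ i j : Fin 4, i ≠ 3 ∧ j ≠ 3 ∧
      (P i).comp (X ^ (N + 1) + C ω * X) * (Q j).comp (X ^ (N + 1) + C (ψ ω) * X)
      - (P j).comp (X ^ (N + 1) + C ω * X) * (Q i).comp (X ^ (N + 1) + C (ψ ω) * X) ≠ 0 := by
    by_contra hcon
    push Not at hcon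
    have hind : ∀ i j : Fin 4, i ≠ 3 → j ≠ 3 → ∀ T S : L,
        (P i).eval T * (Q j).eval S = (P j).eval T * (Q i).eval S := by
      intro i j hi hj T S
      exact indep_of_subst ω (ψ ω) hω (P i) (P j) (Q j) (Q i)
        (fun N => sub_eq_zero.mp (hcon N i j hi hj)) T S
    obtain ⟨j, hj, hPj⟩ := hne
    have hQj : Q j ≠ 0 := by
      intro h
      apply hPj
      have : (Q j).map ψ = P j := hPψ j
      rw [← this, h, Polynomial.map_zero]
    obtain ⟨S, hS⟩ : ∃ S, (Q j).eval S ≠ 0 := by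
      by_contra hcon2
      push Not at hcon2
      exact hQj (Polynomial.funext (by simpa using hcon2))
    set ν : Fin 4 → L := fun i => (Q i).eval S / (Q j).eval S with hν
    have hPi : ∀ i, i ≠ 3 → P i = C (ν i) * P j := by
      intro i hi
      apply Polynomial.funext
      intro T
      have := hind i j hi hj T S
      simp only [eval_mul, eval_C, hν]
      field_simp
      linear_combination this
    have hνj : ν j = 1 := by simp [hν, hS]
    have hνψ : ∀ i, i ≠ 3 → ψ (ψ (ν i)) = ν i := by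
      intro i hi
      have h1 := hPψ i
      have h2 := hPψ j
      have h3 := hPi i hi
      rw [h3, Polynomial.map_mul, Polynomial.map_mul, map_C, map_C, h2] at h1
      have := mul_right_cancel₀ hPj h1
      exact C_injective this
    have hF' : P j * (C (ν 2) * P 3 ^ 2 + C m * C (ν 2) ^ 2 * P j * P 3
        + c3 (fun i => C (c i)) (C (ν 0)) (C (ν 1)) (C (ν 2)) * P j ^ 2) = 0 := by
      have h1 := hF
      simp only [cub, c3] at h1 ⊢
      rw [hPi 0 (by decide), hPi 1 (by decide), hPi 2 (by decide)] at h1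
      linear_combination h1
    have hF2 := (mul_eq_zero.mp hF').resolve_left hPj
    have hν2 : ν 2 = 0 := by
      have := congrArg (eval 0) hF2
      simpa [h3, h0 j hj] using this
    have hc3 : c0 c (ν 0) (ν 1) = 0 := by
      rw [hν2] at hF2
      have h1 : C (c0 c (ν 0) (ν 1)) * P j ^ 2 = 0 := by
        simp only [c3, c0, map_zero, map_add, map_mul, map_pow] at hF2 ⊢
        linear_combination hF2
      have h2 := (mul_eq_zero.mp h1).resolve_right (pow_ne_zero _ hPj)
      exact C_eq_zero.mp h2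
    have := Z2 (ν 0) (ν 1) (hνψ 0 (by decide)) (hνψ 1 (by decide)) hc3
    have hall : ∀ i : Fin 4, i ≠ 3 → ν i = 0 := by
      intro i hi
      fin_cases i
      · exact this.1
      · exact this.2
      · exact hν2
      · exact absurd rfl hi
    rw [hall j hj] at hνj
    exact zero_ne_one hνj
  obtain ⟨N, i, j, hi, hj, hij⟩ := key
  set A : Fin 4 → L[X] := fun i => (P i).comp (X ^ (N + 1) + C ω * X) with hA
  set B : Fin 4 → L[X] := fun i => (Q i).comp (X ^ (N + 1) + C (ψ ω) * X) with hB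
  have hAB : ∀ i, (A i).map ψ = B i := by
    intro i
    simp only [hA, hB, hQ, Polynomial.map_comp, Polynomial.map_add, Polynomial.map_pow,
      Polynomial.map_mul, map_X, map_C]
  have hBA : ∀ i, (B i).map ψ = A i := by
    intro i
    simp only [hA, hB, hQ, Polynomial.map_comp, Polynomial.map_add, Polynomial.map_pow,
      Polynomial.map_mul, map_X, map_C, hPψ i, hω2]
  have hFA : cub (C m) (fun i => C (c i)) A = 0 := by
    have h1 := map_cub (Polynomial.compRingHom (X ^ (N + 1) + C ω * X)) (C m) (fun i => C (c i)) P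
    rw [hF, map_zero] at h1
    simp only [coe_compRingHom_apply, C_comp] at h1
    exact h1.symm
  have hA0 : ∀ i, (A i).eval 0 = (P i).eval 0 := by
    intro i
    simp [hA, eval_comp]
  have hQ0 : ∀ i, (Q i).eval 0 = ψ ((P i).eval 0) := by
    intro i
    simp only [hQ]
    rw [← coeff_zero_eq_eval_zero, coeff_map, coeff_zero_eq_eval_zero]
  have hB0 : ∀ i, (B i).eval 0 = ψ ((P i).eval 0) := by
    intro i
    rw [← hQ0]
    simp [hB, eval_comp]
  have hB3 : (B 3).eval 0 = 1 := by rw [hB0, h3, map_one]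
  have hA3 : (A 3).eval 0 = 1 := by rw [hA0, h3]
  have hA3ne : A 3 ≠ 0 := by intro h; rw [h] at hA3; simp at hA3
  have hB3ne : B 3 ≠ 0 := by intro h; rw [h] at hB3; simp at hB3
  refine descent_local ψ m c hm hc Z1 (B 3 • A) (A 3 • B) ?_ ?_ ?_ ?_ ?_ ?_ ?_
  · intro i
    simp only [Pi.smul_apply, smul_eq_mul, Polynomial.map_mul, hAB, hBA]
  · intro i
    simp only [Pi.smul_apply, smul_eq_mul, Polynomial.map_mul, hAB, hBA]
  · rw [cub_smul, hFA, mul_zero]
  · intro i hi
    simp only [Pi.smul_apply, smul_eq_mul, eval_mul, hA0, h0 i hi, mul_zero]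
  · simp only [Pi.smul_apply, smul_eq_mul, eval_mul, hA3, hB3, mul_one]
  · simp only [Pi.smul_apply, smul_eq_mul]
    ring
  · refine ⟨i, j, hi, hj, ?_⟩
    simp only [Pi.smul_apply, smul_eq_mul]
    have : B 3 * A i * (A 3 * B j) - B 3 * A j * (A 3 * B i)
        = (A 3 * B 3) * (A i * B j - A j * B i) := by ring
    rw [this]
    exact mul_ne_zero (mul_ne_zero hA3ne hB3ne) hij

end Part3

section Part4

open Polynomial


theorem zeros_sq {L : Type*} [Field L] (ψ : L →+* L) (c : Fin 10 → L)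
    (hc : ∀ i, ψ (c i) = c i)
    (Z1 : ∀ a b, ψ a = a → ψ b = b → c0 c a b = 0 → a = 0 ∧ b = 0) :
    ∀ a b, ψ (ψ a) = a → ψ (ψ b) = b → c0 c a b = 0 → a = 0 ∧ b = 0 := by
  intro a b ha hb h
  have hc0 : c 0 ≠ 0 := by
    intro hc0
    have := Z1 1 0 (map_one ψ) (map_zero ψ) (by simp [c0, hc0])
    exact one_ne_zero this.1
  by_cases hb0 : b = 0
  · subst hb0
    have h2 : c 0 * a ^ 3 = 0 := by simpa [c0] using h
    rcases mul_eq_zero.mp h2 with h | h
    · exact absurd h hc0
    · exact ⟨pow_eq_zero_iff (by norm_num) |>.mp h, rfl⟩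
  · exfalso
    set θ := a / b with hθ
    have hg : c0 c θ 1 = 0 := by
      have h3 : c0 c θ 1 = c0 c a b / b ^ 3 := by
        simp only [c0, hθ]; field_simp
      rw [h3, h, zero_div]
    have hθ2 : ψ (ψ θ) = θ := by rw [hθ, map_div₀, map_div₀, ha, hb]
    by_cases h1 : ψ θ = θ
    · exact one_ne_zero (Z1 θ 1 h1 (map_one ψ) hg).2
    · set θ' := ψ θ with hθ'
      have hg' : c0 c θ' 1 = 0 := by
        have := congrArg ψ hg
        rw [map_c0, map_zero, map_one] at this
        have e : (fun i => ψ (c i)) = c := funext hc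
        rw [e] at this
        exact this
      set θ'' := - c 1 / c 0 - θ - θ' with hθ''
      have hfix : ψ θ'' = θ'' := by
        rw [hθ'', map_sub, map_sub, map_div₀, map_neg, hc, hc, hθ2, ← hθ']
        ring
      have hs : c 0 * (θ'' + θ' + θ) + c 1 = 0 := by
        rw [hθ'']; field_simp; ring
      have hne : θ - θ' ≠ 0 := sub_ne_zero.mpr (Ne.symm h1)
      have hq : c 0 * (θ ^ 2 + θ * θ' + θ' ^ 2) + c 1 * (θ + θ') + c 2 = 0 := by
        have : (θ - θ') * (c 0 * (θ ^ 2 + θ * θ' + θ' ^ 2) + c 1 * (θ + θ') + c 2) = 0 := by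
          simp only [c0] at hg hg'
          linear_combination hg - hg'
        exact (mul_eq_zero.mp this).resolve_left hne
      have hg'' : c0 c θ'' 1 = 0 := by
        simp only [c0] at hg ⊢
        linear_combination hg + (θ'' - θ) * hq + (θ'' - θ) * (θ'' - θ') * hs
      exact one_ne_zero (Z1 θ'' 1 hfix (map_one ψ) hg'').2

theorem quad_fix {L : Type*} [Field L] (ψ : L →+* L) (b c r : L) (hb : ψ b = b) (hc : ψ c = c)
    (hr : r ^ 2 + b * r + c = 0) : ψ (ψ r) = r := by
  have h1 := congrArg ψ hr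
  simp only [map_add, map_mul, map_pow, hb, hc, map_zero] at h1
  have h2 : (ψ r - r) * (ψ r + r + b) = 0 := by linear_combination h1 - hr
  rcases mul_eq_zero.mp h2 with h | h
  · rw [sub_eq_zero] at h; rw [h, h]
  · have h3 : ψ r = - b - r := by linear_combination h
    rw [h3, map_sub, map_neg, hb, h3]; ring

end Part4

section Part5

open Polynomial


section Tower

variable (K L : Type*) [Field K] [Fintype K] [Field L] [Algebra K L]

/-- The tower of Frobenius powers `x ↦ x^(q^(2^n))`. -/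
noncomputable def fr : ℕ → (L →+* L)
  | 0 => (FiniteField.frobeniusAlgHom K L : L →+* L)
  | (n + 1) => (fr n).comp (fr n)

theorem fr_succ (n : ℕ) (x : L) : fr K L (n + 1) x = fr K L n (fr K L n x) := rfl

theorem fr_apply (n : ℕ) (x : L) : fr K L n x = x ^ (Fintype.card K ^ (2 ^ n)) := by
  induction n generalizing x with
  | zero => simp [fr]
  | succ n ih => rw [fr_succ, ih, ih, ← pow_mul, ← pow_add, pow_succ, mul_two]

theorem fr_algebraMap (n : ℕ) (a : K) : fr K L n (algebraMap K L a) = algebraMap K L a := by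
  induction n with
  | zero => simp [fr]
  | succ n ih => rw [fr_succ, ih, ih]

theorem fr_mono {n k : ℕ} (h : n ≤ k) {x : L} (hx : fr K L n x = x) : fr K L k x = x := by
  induction k, h using Nat.le_induction with
  | base => exact hx
  | succ k _ ih => rw [fr_succ, ih, ih]

variable [IsAlgClosed L] [DecidableEq L]

theorem card_fix (n : ℕ) :
    (X ^ (Fintype.card K ^ (2 ^ n)) - X : L[X]).roots.toFinset.card = Fintype.card K ^ (2 ^ n) := by
  obtain ⟨k, hp, hcard⟩ := FiniteField.card K (ringChar K)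
  have hq : 1 < Fintype.card K := Fintype.one_lt_card
  have hQ : 1 < Fintype.card K ^ (2 ^ n) := Nat.one_lt_pow (by positivity) hq
  have : CharP L (ringChar K) := charP_of_injective_algebraMap' K (ringChar K)
  have hsep : (X ^ (Fintype.card K ^ (2 ^ n)) - X : L[X]).Separable := by
    apply galois_poly_separable (ringChar K)
    rw [hcard, ← pow_mul]
    exact dvd_pow_self _ (by positivity)
  have hsplit : (X ^ (Fintype.card K ^ (2 ^ n)) - X : L[X]).Splits := IsAlgClosed.splits _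
  rw [Multiset.toFinset_card_of_nodup (nodup_roots hsep), ← hsplit.natDegree_eq_card_roots,
    FiniteField.X_pow_card_sub_X_natDegree_eq L hQ]

omit [IsAlgClosed L] in
theorem mem_fix_iff (n : ℕ) (x : L) :
    x ∈ (X ^ (Fintype.card K ^ (2 ^ n)) - X : L[X]).roots.toFinset ↔ fr K L n x = x := by
  have hq : 1 < Fintype.card K := Fintype.one_lt_card
  have hQ : 1 < Fintype.card K ^ (2 ^ n) := Nat.one_lt_pow (by positivity) hq
  rw [Multiset.mem_toFinset, mem_roots (FiniteField.X_pow_card_sub_X_ne_zero L hQ), IsRoot.def,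
    eval_sub, eval_pow, eval_X, fr_apply, sub_eq_zero]

theorem exists_omega (n : ℕ) : ∃ ω : L, fr K L n (fr K L n ω) = ω ∧ fr K L n ω ≠ ω := by
  by_contra hcon
  push Not at hcon
  have hsub : (X ^ (Fintype.card K ^ (2 ^ (n + 1))) - X : L[X]).roots.toFinset ⊆
      (X ^ (Fintype.card K ^ (2 ^ n)) - X : L[X]).roots.toFinset := by
    intro x hx
    rw [mem_fix_iff] at hx ⊢
    exact hcon x hx
  have := Finset.card_le_card hsub
  rw [card_fix, card_fix] at this
  have hq : 1 < Fintype.card K := Fintype.one_lt_card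
  have h2 : 2 ^ (n + 1) ≤ 2 ^ n := (Nat.pow_le_pow_iff_right hq).mp this
  have h3 : n + 1 ≤ n := (Nat.pow_le_pow_iff_right (by norm_num)).mp h2
  omega

theorem exists_fix_eval_ne (g : L[X]) (hg : g ≠ 0) :
    ∃ n a, fr K L n a = a ∧ g.eval a ≠ 0 := by
  by_contra hcon
  push Not at hcon
  have hq : 1 < Fintype.card K := Fintype.one_lt_card
  obtain ⟨n, hn⟩ : ∃ n, g.natDegree < Fintype.card K ^ (2 ^ n) := by
    refine ⟨g.natDegree, ?_⟩
    calc g.natDegree < 2 ^ g.natDegree := Nat.lt_two_pow_self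
      _ < Fintype.card K ^ (2 ^ g.natDegree) := Nat.lt_pow_self hq
  have hsub : (X ^ (Fintype.card K ^ (2 ^ n)) - X : L[X]).roots.toFinset ⊆ g.roots.toFinset := by
    intro x hx
    rw [mem_fix_iff] at hx
    rw [Multiset.mem_toFinset, mem_roots hg]
    exact hcon n x hx
  have h1 := Finset.card_le_card hsub
  rw [card_fix] at h1
  have h2 := (Multiset.toFinset_card_le g.roots).trans (card_roots' g)
  omega

/-- Elements fixed by the first Frobenius are in `K`. -/
theorem mem_range_of_fr_zero (x : L) (hx : fr K L 0 x = x) : ∃ a : K, algebraMap K L a = x := by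
  have hinj : Function.Injective (algebraMap K L) := (algebraMap K L).injective
  have hsub : (Finset.univ.image (algebraMap K L)) ⊆
      (X ^ (Fintype.card K ^ (2 ^ 0)) - X : L[X]).roots.toFinset := by
    intro y hy
    rw [Finset.mem_image] at hy
    obtain ⟨a, -, rfl⟩ := hy
    rw [mem_fix_iff, fr_algebraMap]
  have heq := Finset.eq_of_subset_of_card_le hsub (by
    rw [card_fix, Finset.card_image_of_injective _ hinj, Finset.card_univ]; simp)
  have hx2 := (mem_fix_iff K L 0 x).mpr hx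
  rw [← heq, Finset.mem_image] at hx2
  obtain ⟨a, -, ha⟩ := hx2
  exact ⟨a, ha⟩

end Tower

end Part5

section Part6

open Polynomial


theorem cub_congr {A : Type*} [CommRing A] {m m' : A} {c c' : Fin 10 → A} {P P' : Fin 4 → A}
    (h1 : m = m') (h2 : c = c') (h3 : P = P') : cub m c P = cub m' c' P' := by
  subst h1 h2 h3; rfl

theorem dcub_congr {A : Type*} [CommRing A] {m m' : A} {c c' : Fin 10 → A} {P P' Q Q' : Fin 4 → A}
    (h1 : m = m') (h2 : c = c') (h3 : P = P') (h4 : Q = Q') :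
    dcub m c P Q = dcub m' c' P' Q' := by
  subst h1 h2 h3 h4; rfl

theorem initial_alg {L : Type*} [Field L] (ψ : L →+* L) (m : L) (c : Fin 10 → L)
    (hm : ψ m = m) (hc : ∀ i, ψ (c i) = c i) (a b w ξ s cx cy t1 t2 t3 : L)
    (ha : ψ a = a) (hb : ψ b = b) (hw : ψ w = w) (hξ : ψ ξ = ξ)
    (hs : s = 2 * w + m)
    (hcx : cx = 3 * c 0 * a ^ 2 + 2 * c 1 * a * b + c 2 * b ^ 2 + 2 * c 4 * a + c 5 * b + c 7)
    (hcy : cy = c 1 * a ^ 2 + 2 * c 2 * a * b + 3 * c 3 * b ^ 2 + c 5 * a + 2 * c 6 * b + c 8)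
    (ht1 : t1 = cx ^ 2 + s ^ 2 * (3 * c 0 * a + c 1 * b + c 4))
    (ht2 : t2 = 2 * cx * cy + s ^ 2 * (2 * c 1 * a + 2 * c 2 * b + c 5))
    (ht3 : t3 = cy ^ 2 + s ^ 2 * (c 2 * a + 3 * c 3 * b + c 6))
    (hcurve : w ^ 2 + m * w + c3 c a b 1 = 0) (hs0 : s ≠ 0) (ht10 : t1 ≠ 0)
    (hquad : t1 * ξ ^ 2 + t2 * ξ + t3 = 0) (hf : c0 c ξ 1 ≠ 0) :
    ∃ R : Fin 4 → L[X], (∀ i, (R i).map ψ = R i) ∧ cub (C m) (fun i => C (c i)) R = 0 ∧
      (∀ i, i ≠ 3 → (R i).eval 0 = 0) ∧ (R 3).eval 0 = 1 ∧ ∃ i, i ≠ 3 ∧ R i ≠ 0 := by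
  set M : L[X] := C m with hM
  set cc : Fin 10 → L[X] := fun i => C (c i) with hcc
  set Ψ : L[X] →+* L[X] := mapRingHom ψ with hΨ
  have hψs : ψ s = s := by
    rw [hs]; simp only [map_add, map_mul, map_ofNat, hw, hm]
  have hψcx : ψ cx = cx := by
    rw [hcx]; simp only [map_add, map_mul, map_pow, map_ofNat, ha, hb, hc]
  have hψcy : ψ cy = cy := by
    rw [hcy]; simp only [map_add, map_mul, map_pow, map_ofNat, ha, hb, hc]
  have hΨM : Ψ M = M := by simp [hΨ, hM, hm]
  have hΨc : (fun i => Ψ (cc i)) = cc := by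
    funext i; simp [hΨ, hcc, hc]
  have hΨX : Ψ X = X := by simp [hΨ]
  have hΨC : ∀ x : L, Ψ (C x) = C (ψ x) := by intro x; simp [hΨ]
  set y0 : Fin 4 → L[X] := ![C a, C b, 1, C w] with hy0
  set A : Fin 4 → L[X] := ![C a, C b, 1, C (-w - m)] with hA
  set V : Fin 4 → L[X] := ![C s * (C ξ + X), C s, 0, -(C cx * (C ξ + X) + C cy)] with hV
  have hΨy0 : (fun i => Ψ (y0 i)) = y0 := by
    funext i; fin_cases i <;> simp [hy0, hΨ, ha, hb, hw]
  have hΨA : (fun i => Ψ (A i)) = A := by
    funext i; fin_cases i <;> simp [hA, hΨ, ha, hb, hw, hm]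
  have hΨV : (fun i => Ψ (V i)) = V := by
    funext i; fin_cases i <;> simp [hV, hΨ, hξ, hψs, hψcx, hψcy]
  have hcurveC : (C w : L[X]) ^ 2 + M * C w + (cc 0 * C a ^ 3 + cc 1 * C a ^ 2 * C b
      + cc 2 * C a * C b ^ 2 + cc 3 * C b ^ 3
      + cc 4 * C a ^ 2 + cc 5 * C a * C b + cc 6 * C b ^ 2 + cc 7 * C a
      + cc 8 * C b + cc 9) = 0 := by
    have := congrArg (C : L → L[X]) hcurve
    simp only [c3, map_add, map_mul, map_pow, map_zero, mul_one, one_pow] at this
    simpa [hM, hcc] using this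
  have e0 : y0 0 = C a := rfl
  have e1 : y0 1 = C b := rfl
  have e2 : y0 2 = 1 := rfl
  have e3 : y0 3 = C w := rfl
  have A0 : A 0 = C a := rfl
  have A1 : A 1 = C b := rfl
  have A2 : A 2 = 1 := rfl
  have A3 : A 3 = - C w - M := by
    show C (-w - m) = - C w - M
    rw [hM]; simp
  have V0 : V 0 = C s * (C ξ + X) := rfl
  have V1 : V 1 = C s := rfl
  have V2 : V 2 = 0 := rfl
  have V3 : V 3 = -(C cx * (C ξ + X) + C cy) := rfl
  have hCs : (C s : L[X]) = 2 * C w + M := by
    rw [hs, hM]; simp only [map_add, map_mul, map_ofNat]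
  have hCcx : (C cx : L[X]) = 3 * cc 0 * C a ^ 2 + 2 * cc 1 * C a * C b + cc 2 * C b ^ 2
      + 2 * cc 4 * C a + cc 5 * C b + cc 7 := by
    rw [hcx]; simp only [map_add, map_mul, map_pow, map_ofNat, hcc]
  have hCcy : (C cy : L[X]) = cc 1 * C a ^ 2 + 2 * cc 2 * C a * C b + 3 * cc 3 * C b ^ 2
      + cc 5 * C a + 2 * cc 6 * C b + cc 8 := by
    rw [hcy]; simp only [map_add, map_mul, map_pow, map_ofNat, hcc]
  set y : Fin 4 → L := ![a, b, 1, w] with hy
  set y' : Fin 4 → L := ![a, b, 1, -w - m] with hy'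
  have hevy : (fun i => (y0 i).eval 0) = y := by
    funext i; fin_cases i <;> simp [hy0, hy]
  have hevA : (fun i => (A i).eval 0) = y' := by
    funext i; fin_cases i <;> simp [hA, hy']
  have hevM : evalRingHom (0 : L) M = m := by simp [hM]
  have hevc : (fun i => evalRingHom (0 : L) (cc i)) = c := by
    funext i; simp [hcc]
  have hccC : ∀ i, cc i = C (c i) := fun i => rfl
  have hΨmap : ∀ g : L[X], Ψ g = g.map ψ := fun g => rfl
  clear_value y0 A V M Ψ
  have F1 : cub M cc y0 = 0 := by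
    simp only [cub, c3, e0, e1, e2, e3]
    linear_combination hcurveC
  have F1' : cub M cc A = 0 := by
    simp only [cub, c3, A0, A1, A2, A3]
    linear_combination hcurveC
  have F2 : dcub M cc y0 V = 0 := by
    simp only [dcub, e0, e1, e2, e3, V0, V1, V2, V3]
    rw [hCcx, hCcy, hCs]
    ring
  set f : L[X] := cub M cc V with hfdef
  set Θ : L[X] := dcub M cc V y0 with hΘdef
  set u : Fin 4 → L[X] := f • y0 - Θ • V with hu
  have hFu : cub M cc u = 0 := by
    have := cub_comb M cc y0 V f (-Θ)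
    rw [neg_smul, ← sub_eq_add_neg, ← hu, F1, F2, ← hfdef, ← hΘdef] at this
    rw [this]; ring
  have hΨf : Ψ f = f := (map_cub Ψ M cc V).trans (cub_congr hΨM hΨc hΨV)
  have hΨΘ : Ψ Θ = Θ := (map_dcub Ψ M cc V y0).trans (dcub_congr hΨM hΨc hΨV hΨy0)
  have hΨu : (fun i => Ψ (u i)) = u := by
    funext i
    have h1 : Ψ (y0 i) = y0 i := congrFun hΨy0 i
    have h2 : Ψ (V i) = V i := congrFun hΨV i
    simp only [hu, Pi.sub_apply, Pi.smul_apply, smul_eq_mul, map_sub, map_mul, hΨf, hΨΘ, h1, h2]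
  set R : Fin 4 → L[X] := dcub M cc u A • A - dcub M cc A u • u with hR
  have hFR : cub M cc R = 0 := third_point M cc A u F1' hFu
  have hΨR : ∀ i, Ψ (R i) = R i := by
    intro i
    have h1 : Ψ (A i) = A i := congrFun hΨA i
    have h2 : Ψ (u i) = u i := congrFun hΨu i
    have h3 : Ψ (dcub M cc u A) = dcub M cc u A :=
      (map_dcub Ψ M cc u A).trans (dcub_congr hΨM hΨc hΨu hΨA)
    have h4 : Ψ (dcub M cc A u) = dcub M cc A u :=
      (map_dcub Ψ M cc A u).trans (dcub_congr hΨM hΨc hΨA hΨu)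
    simp only [hR, Pi.sub_apply, Pi.smul_apply, smul_eq_mul, map_sub, map_mul, h1, h2, h3, h4]
  -- the polynomial Θ
  have hΘ : Θ = C t1 * (C ξ + X) ^ 2 + C t2 * (C ξ + X) + C t3 := by
    simp only [hΘdef, dcub, e0, e1, e2, e3, V0, V1, V2, V3]
    rw [ht1, ht2, ht3]
    simp only [map_add, map_mul, map_pow, map_ofNat, hccC]
    ring
  have hΘ0 : Θ.eval 0 = 0 := by
    rw [hΘ]; simp [hquad]
  have hf0 : f.eval 0 = s ^ 3 * c0 c ξ 1 := by
    simp only [hfdef, cub, c3, V0, V1, V2, V3, c0, hccC]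
    simp
    ring
  have hu0 : ∀ i, (u i).eval 0 = f.eval 0 * (y0 i).eval 0 := by
    intro i
    simp [hu, hΘ0]
  have hevu : (fun i => (u i).eval 0) = (f.eval 0) • y := by
    funext i
    rw [hu0 i, ← hevy]; rfl
  have hD1 : dcub m c y y' = - s ^ 2 := by
    simp only [dcub, hy, hy', hs, c3] at hcurve ⊢
    simp
    linear_combination 3 * hcurve
  have hD2 : dcub m c y' y = - s ^ 2 := by
    simp only [dcub, hy, hy', hs, c3] at hcurve ⊢
    simp
    linear_combination 3 * hcurve
  have hev1 : (dcub M cc u A).eval 0 = (f.eval 0) ^ 2 * (- s ^ 2) := by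
    have h1 : (dcub M cc u A).eval 0 = dcub m c (f.eval 0 • y) y' :=
      (map_dcub (evalRingHom (0 : L)) M cc u A).trans (dcub_congr hevM hevc hevu hevA)
    rw [h1, ← hD1]
    simp only [dcub, Pi.smul_apply, smul_eq_mul]
    ring
  have hev2 : (dcub M cc A u).eval 0 = (f.eval 0) * (- s ^ 2) := by
    have h1 : (dcub M cc A u).eval 0 = dcub m c y' (f.eval 0 • y) :=
      (map_dcub (evalRingHom (0 : L)) M cc A u).trans (dcub_congr hevM hevc hevA hevu)
    rw [h1, ← hD2]
    simp only [dcub, Pi.smul_apply, smul_eq_mul]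
    ring
  have hf0ne : f.eval 0 ≠ 0 := by
    rw [hf0]; exact mul_ne_zero (pow_ne_zero _ hs0) hf
  have hRev : ∀ i, (R i).eval 0 = (f.eval 0) ^ 2 * s ^ 2 * ((y i) - y' i) := by
    intro i
    have h1 : (A i).eval 0 = y' i := congrFun hevA i
    have h2 : (y0 i).eval 0 = y i := congrFun hevy i
    simp only [hR, Pi.sub_apply, Pi.smul_apply, smul_eq_mul, eval_sub, eval_mul, hev1, hev2, hu0 i,
      h1, h2]
    ring
  have hne : (f.eval 0) ^ 2 * s ^ 3 ≠ 0 := mul_ne_zero (pow_ne_zero _ hf0ne) (pow_ne_zero _ hs0)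
  set lam : L := (f.eval 0) ^ 2 * s ^ 3 with hlam
  have hψf0 : ψ (f.eval 0) = f.eval 0 := by
    conv_rhs => rw [← hΨf, hΨmap]
    rw [← coeff_zero_eq_eval_zero, ← coeff_zero_eq_eval_zero, coeff_map]
  have hψlam : ψ lam = lam := by
    rw [hlam, map_mul, map_pow, map_pow, hψf0, hψs]
  refine ⟨(C lam⁻¹ : L[X]) • R, ?_, ?_, ?_, ?_, ?_⟩
  · intro i
    have h := hΨR i
    rw [hΨmap] at h
    simp only [Pi.smul_apply, smul_eq_mul, Polynomial.map_mul, map_C, map_inv₀, hψlam, h]
  · rw [cub_smul, hFR, mul_zero]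
  · intro i hi
    simp only [Pi.smul_apply, smul_eq_mul, eval_mul, hRev]
    have : y i - y' i = 0 := by
      fin_cases i
      · simp [hy, hy']
      · simp [hy, hy']
      · simp [hy, hy']
      · exact absurd rfl hi
    rw [this]; ring
  · simp only [Pi.smul_apply, smul_eq_mul, eval_mul, hRev, eval_C]
    have : y 3 - y' 3 = s := by
      show w - (-w - m) = s
      rw [hs]; ring
    rw [this]
    have : f.eval 0 ^ 2 * s ^ 2 * s = lam := by rw [hlam]; ring
    rw [this, inv_mul_cancel₀ hne]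
  · by_contra hcon
    push Not at hcon
    have hz : ∀ i, i ≠ 3 → R i = 0 := by
      intro i hi
      have h := hcon i hi
      simp only [Pi.smul_apply, smul_eq_mul] at h
      refine (mul_eq_zero.mp h).resolve_left ?_
      simpa using inv_ne_zero hne
    have h1 := hz 1 (by decide)
    have h2 := hz 2 (by decide)
    simp only [hR, Pi.sub_apply, Pi.smul_apply, smul_eq_mul] at h1 h2
    have hu1 : u 1 = f * C b - Θ * C s := by
      simp only [hu, Pi.sub_apply, Pi.smul_apply, smul_eq_mul, e1, V1]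
    have hu2 : u 2 = f := by
      simp only [hu, Pi.sub_apply, Pi.smul_apply, smul_eq_mul, e2, V2]
      ring
    rw [hu1, A1] at h1
    rw [hu2, A2] at h2
    have h3 : dcub M cc A u * (Θ * C s) = 0 := by
      linear_combination h1 - C b * h2
    have h4 : dcub M cc A u ≠ 0 := by
      intro h
      rw [h, eval_zero] at hev2
      exact mul_ne_zero hf0ne (neg_ne_zero.mpr (pow_ne_zero _ hs0)) hev2.symm
    have h5 : (C s : L[X]) ≠ 0 := by simpa using hs0
    have h6 : Θ ≠ 0 := by
      intro h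
      rw [h] at hΘ
      have h7 := congrArg (fun g : L[X] => g.comp (X - C ξ)) hΘ
      simp only [zero_comp, add_comp, mul_comp, pow_comp, C_comp, X_comp] at h7
      have h8 : (C t1 : L[X]) * X ^ 2 + C t2 * X + C t3 = 0 := by
        rw [h7]; ring
      have h9 := congrArg (fun g : L[X] => g.coeff 2) h8
      simp at h9
      exact ht10 h9
    exact mul_ne_zero h4 (mul_ne_zero h6 h5) h3

end Part6

section Part7

open Polynomial


theorem exists_quad_root {L : Type*} [Field L] [IsAlgClosed L] (b c : L) :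
    ∃ r : L, r ^ 2 + b * r + c = 0 := by
  obtain ⟨r, hr⟩ := IsAlgClosed.exists_root (X ^ 2 + C b * X + C c : L[X]) (by
    have : (X ^ 2 + C b * X + C c : L[X]).degree = 2 := by compute_degree!
    rw [this]; norm_num)
  refine ⟨r, ?_⟩
  simpa [IsRoot.def] using hr

theorem quartic_zero {L : Type*} [Field L] (a4 a3 a2 a1 a0 : L)
    (h : (C a4 * X ^ 4 + C a3 * X ^ 3 + C a2 * X ^ 2 + C a1 * X + C a0 : L[X]) = 0) :
    a4 = 0 ∧ a3 = 0 ∧ a0 = 0 := by
  refine ⟨?_, ?_, ?_⟩
  · have := congrArg (fun f : L[X] => f.coeff 4) h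
    simpa [coeff_X, coeff_C] using this
  · have := congrArg (fun f : L[X] => f.coeff 3) h
    simpa [coeff_X, coeff_C] using this
  · have := congrArg (fun f : L[X] => f.coeff 0) h
    simpa [coeff_X, coeff_C] using this

/-- The property that there is a curve fixed by the `n`-th Frobenius. -/
def Good (K L : Type*) [Field K] [Fintype K] [Field L] [Algebra K L] (m : L) (c : Fin 10 → L)
    (n : ℕ) : Prop :=
  ∃ R : Fin 4 → L[X], (∀ i, (R i).map (fr K L n) = R i) ∧ cub (C m) (fun i => C (c i)) R = 0 ∧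
      (∀ i, i ≠ 3 → (R i).eval 0 = 0) ∧ (R 3).eval 0 = 1 ∧ ∃ i, i ≠ 3 ∧ R i ≠ 0

section
variable {K : Type*} [Field K] [Fintype K] (L : Type*) [Field L] [Algebra K L] [IsAlgClosed L]
  [DecidableEq L]

theorem zeros_all (c : Fin 10 → K) (Z0 : ∀ a b : K, c0 c a b = 0 → a = 0 ∧ b = 0) (n : ℕ) :
    ∀ a b : L, fr K L n a = a → fr K L n b = b →
      c0 (fun i => algebraMap K L (c i)) a b = 0 → a = 0 ∧ b = 0 := by
  induction n with
  | zero =>
    intro a b ha hb h
    obtain ⟨a', rfl⟩ := mem_range_of_fr_zero K L a ha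
    obtain ⟨b', rfl⟩ := mem_range_of_fr_zero K L b hb
    rw [← map_c0, map_eq_zero] at h
    obtain ⟨h1, h2⟩ := Z0 a' b' h
    rw [h1, h2, map_zero]
    exact ⟨rfl, rfl⟩
  | succ n ih =>
    exact zeros_sq (fr K L n) _ (fun i => fr_algebraMap K L n (c i)) ih

theorem good_desc (m : K) (c : Fin 10 → K) (Z0 : ∀ a b : K, c0 c a b = 0 → a = 0 ∧ b = 0) (n : ℕ)
    (h : Good K L (algebraMap K L m) (fun i => algebraMap K L (c i)) (n + 1)) :
    Good K L (algebraMap K L m) (fun i => algebraMap K L (c i)) n := by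
  obtain ⟨P, hP1, hP2, hP3, hP4, hP5⟩ := h
  obtain ⟨ω, hω1, hω2⟩ := exists_omega K L n
  have : Infinite L := IsAlgClosed.instInfinite
  refine descent_step (fr K L n) _ _ (fr_algebraMap K L n m) (fun i => fr_algebraMap K L n (c i))
    (zeros_all L c Z0 n) (zeros_all L c Z0 (n + 1)) ω hω1 hω2 P ?_ hP2 hP3 hP4 hP5
  intro i
  rw [Polynomial.map_map]
  exact hP1 i

theorem good_zero (m : K) (c : Fin 10 → K) (Z0 : ∀ a b : K, c0 c a b = 0 → a = 0 ∧ b = 0) (n : ℕ)
    (h : Good K L (algebraMap K L m) (fun i => algebraMap K L (c i)) n) :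
    Good K L (algebraMap K L m) (fun i => algebraMap K L (c i)) 0 := by
  induction n with
  | zero => exact h
  | succ n ih => exact ih (good_desc L m c Z0 n h)

theorem good_exists (m : K) (c : Fin 10 → K) (h2m : (2 : K) ≠ 0 ∨ m ≠ 0)
    (Z0 : ∀ a b : K, c0 c a b = 0 → a = 0 ∧ b = 0) :
    ∃ n, Good K L (algebraMap K L m) (fun i => algebraMap K L (c i)) n := by
  have hc0K : c 0 ≠ 0 := by
    intro hc0
    have := Z0 1 0 (by simp [c0, hc0])
    exact one_ne_zero this.1
  set M : L := algebraMap K L m with hM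
  set d : Fin 10 → L := fun i => algebraMap K L (c i) with hd
  have hd0 : d 0 ≠ 0 := by
    rw [hd]; simpa using hc0K
  have hdfix : ∀ n i, fr K L n (d i) = d i := fun n i => fr_algebraMap K L n (c i)
  have hMfix : ∀ n, fr K L n M = M := fun n => fr_algebraMap K L n m
  -- choose b
  have hb : ∃ nb b, fr K L nb b = b ∧
      ((3 : L) ≠ 0 ∨ d 1 * b + d 4 ≠ 0 ∨ d 2 * b ^ 2 + d 5 * b + d 7 ≠ 0) := by
    by_cases h3 : (3 : L) = 0
    · by_cases h14 : d 1 = 0 ∧ d 4 = 0
      · -- then d 2 ≠ 0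
        have hd2 : d 2 ≠ 0 := by
          intro hd2
          have h3K : (3 : K) = 0 := by
            have : algebraMap K L 3 = 0 := by rw [map_ofNat]; exact h3
            exact (map_eq_zero _).mp this
          have hc1 : c 1 = 0 := (map_eq_zero (algebraMap K L)).mp h14.1
          have hc2 : c 2 = 0 := (map_eq_zero (algebraMap K L)).mp hd2
          have : CharP K 3 := by
            have hp : ringChar K ∣ 3 := by
              rw [← CharP.cast_eq_zero_iff K (ringChar K)]
              exact_mod_cast h3K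
            have h1 : ringChar K = 3 := by
              rcases (Nat.dvd_prime Nat.prime_three).mp hp with h | h
              · exact absurd h (CharP.ringChar_ne_one)
              · exact h
            rw [← h1]; infer_instance
          have : ExpChar K 3 := .prime Nat.prime_three
          obtain ⟨g, hg⟩ := surjective_frobenius K 3 (- c 3 / c 0)
          rw [frobenius_def] at hg
          have := Z0 g 1 (by
            simp only [c0, hc1, hc2, hg]
            field_simp
            ring)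
          exact one_ne_zero this.2
        obtain ⟨n, b, h1, h2⟩ := exists_fix_eval_ne K L
          (C (d 2) * X ^ 2 + C (d 5) * X + C (d 7) : L[X]) (by
            intro h
            have := congrArg (fun f : L[X] => f.coeff 2) h
            simp at this
            exact hd2 this)
        refine ⟨n, b, h1, Or.inr (Or.inr ?_)⟩
        simpa using h2
      · obtain ⟨n, b, h1, h2⟩ := exists_fix_eval_ne K L
          (C (d 1) * X + C (d 4) : L[X]) (by
            intro h
            apply h14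
            constructor
            · have := congrArg (fun f : L[X] => f.coeff 1) h
              simpa [coeff_C] using this
            · have := congrArg (fun f : L[X] => f.coeff 0) h
              simpa using this)
        refine ⟨n, b, h1, Or.inr (Or.inl ?_)⟩
        simpa using h2
    · exact ⟨0, 0, map_zero _, Or.inl h3⟩
  obtain ⟨nb, b, hbfix, hbcond⟩ := hb
  set g2 : L := d 1 * b + d 4 with hg2
  set g1 : L := d 2 * b ^ 2 + d 5 * b + d 7 with hg1
  set g0 : L := d 3 * b ^ 3 + d 6 * b ^ 2 + d 8 * b + d 9 with hg0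
  set T11 : L[X] := C (-3 * d 0 ^ 2) * X ^ 4 + C (-4 * d 0 * g2) * X ^ 3
    + C (-6 * d 0 * g1) * X ^ 2 + C (3 * d 0 * M ^ 2 - 12 * d 0 * g0) * X
    + C (g1 ^ 2 - 4 * g0 * g2 + M ^ 2 * g2) with hT11
  have hT11ne : T11 ≠ 0 := by
    intro h
    obtain ⟨h4, h3, h0⟩ := quartic_zero _ _ _ _ _ h
    have h33 : (3 : L) = 0 := by
      have : (3 : L) * d 0 ^ 2 = 0 := by linear_combination -h4
      exact (mul_eq_zero.mp this).resolve_right (pow_ne_zero _ hd0)
    have hg20 : g2 = 0 := by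
      have : d 0 * g2 = 0 := by linear_combination - h3 - d 0 * g2 * h33
      exact (mul_eq_zero.mp this).resolve_left hd0
    have hg10 : g1 = 0 := by
      rw [hg20] at h0
      have : g1 ^ 2 = 0 := by linear_combination h0
      exact pow_eq_zero_iff (by norm_num) |>.mp this
    rcases hbcond with h | h | h
    · exact h h33
    · exact h hg20
    · exact h hg10
  set D2 : L[X] := C (-4 * d 0) * X ^ 3 + C (-4 * g2) * X ^ 2 + C (-4 * g1) * X
    + C (M ^ 2 - 4 * g0) with hD2
  have hD2ne : D2 ≠ 0 := by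
    intro h
    obtain ⟨-, h3, h0⟩ := quartic_zero 0 (-4 * d 0) (-4 * g2) (-4 * g1) (M ^ 2 - 4 * g0) (by
      rw [← h, hD2, C_0]; ring)
    have h4 : (4 : L) = 0 := by
      have : (4 : L) * d 0 = 0 := by linear_combination -h3
      exact (mul_eq_zero.mp this).resolve_right hd0
    have h2 : (2 : L) = 0 := by
      have : (2 : L) * 2 = 0 := by linear_combination h4
      rcases mul_eq_zero.mp this with h | h <;> exact h
    rcases h2m with h5 | h5
    · apply h5
      have : algebraMap K L 2 = 0 := by rw [map_ofNat]; exact h2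
      exact (map_eq_zero _).mp this
    · apply h5
      have : M ^ 2 = 0 := by linear_combination h0 + g0 * h4
      have : M = 0 := pow_eq_zero_iff (by norm_num) |>.mp this
      exact (map_eq_zero _).mp this
  obtain ⟨na, a, hafix, haev⟩ := exists_fix_eval_ne K L (T11 * D2) (mul_ne_zero hT11ne hD2ne)
  rw [eval_mul] at haev
  have hT11a : T11.eval a ≠ 0 := left_ne_zero_of_mul haev
  have hD2a : D2.eval a ≠ 0 := right_ne_zero_of_mul haev
  obtain ⟨w, hw⟩ := exists_quad_root M (c3 d a b 1)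
  set s : L := 2 * w + M with hs
  set cx : L := 3 * d 0 * a ^ 2 + 2 * d 1 * a * b + d 2 * b ^ 2 + 2 * d 4 * a + d 5 * b + d 7
    with hcx
  set cy : L := d 1 * a ^ 2 + 2 * d 2 * a * b + 3 * d 3 * b ^ 2 + d 5 * a + 2 * d 6 * b + d 8
    with hcy
  set t1 : L := cx ^ 2 + s ^ 2 * (3 * d 0 * a + d 1 * b + d 4) with ht1
  set t2 : L := 2 * cx * cy + s ^ 2 * (2 * d 1 * a + 2 * d 2 * b + d 5) with ht2
  set t3 : L := cy ^ 2 + s ^ 2 * (d 2 * a + 3 * d 3 * b + d 6) with ht3
  have hs2 : s ^ 2 = D2.eval a := by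
    simp only [hD2, eval_add, eval_mul, eval_C, eval_pow, eval_X]
    simp only [c3] at hw
    rw [hs, hg2, hg1, hg0]
    linear_combination 4 * hw
  have hs0 : s ≠ 0 := by
    intro h
    rw [h] at hs2
    exact hD2a (by rw [← hs2]; ring)
  have ht1e : t1 = T11.eval a := by
    rw [ht1, hs2]
    simp only [hD2, hT11, eval_add, eval_mul, eval_C, eval_pow, eval_X]
    rw [hcx, hg2, hg1, hg0]
    ring
  have ht10 : t1 ≠ 0 := by rw [ht1e]; exact hT11a
  obtain ⟨ξ, hξ⟩ := exists_quad_root (t2 / t1) (t3 / t1)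
  have hquad : t1 * ξ ^ 2 + t2 * ξ + t3 = 0 := by
    have : t1 * (ξ ^ 2 + t2 / t1 * ξ + t3 / t1) = 0 := by rw [hξ, mul_zero]
    rw [← this]; field_simp
  -- fixed fields
  set n1 := max na nb with hn1
  have ha1 : fr K L n1 a = a := fr_mono K L (le_max_left _ _) hafix
  have hb1 : fr K L n1 b = b := fr_mono K L (le_max_right _ _) hbfix
  have hc3fix : fr K L n1 (c3 d a b 1) = c3 d a b 1 := by
    simp only [c3, map_add, map_mul, map_pow, map_one, ha1, hb1, hdfix]
  have hw2 : fr K L (n1 + 1) w = w := by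
    rw [fr_succ]; exact quad_fix (fr K L n1) M _ w (hMfix _) hc3fix hw
  have ha2 : fr K L (n1 + 1) a = a := fr_mono K L (Nat.le_succ _) ha1
  have hb2 : fr K L (n1 + 1) b = b := fr_mono K L (Nat.le_succ _) hb1
  have hsfix : fr K L (n1 + 1) s = s := by
    rw [hs]; simp only [map_add, map_mul, map_ofNat, hw2, hMfix]
  have hcxfix : fr K L (n1 + 1) cx = cx := by
    rw [hcx]; simp only [map_add, map_mul, map_pow, map_ofNat, ha2, hb2, hdfix]
  have hcyfix : fr K L (n1 + 1) cy = cy := by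
    rw [hcy]; simp only [map_add, map_mul, map_pow, map_ofNat, ha2, hb2, hdfix]
  have ht1fix : fr K L (n1 + 1) t1 = t1 := by
    rw [ht1]
    simp only [map_add, map_mul, map_pow, map_ofNat, ha2, hb2, hdfix, hsfix, hcxfix]
  have ht2fix : fr K L (n1 + 1) t2 = t2 := by
    rw [ht2]
    simp only [map_add, map_mul, map_pow, map_ofNat, ha2, hb2, hdfix, hsfix, hcxfix, hcyfix]
  have ht3fix : fr K L (n1 + 1) t3 = t3 := by
    rw [ht3]
    simp only [map_add, map_mul, map_pow, map_ofNat, ha2, hb2, hdfix, hsfix, hcyfix]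
  have hξ2 : fr K L (n1 + 2) ξ = ξ := by
    rw [fr_succ]
    exact quad_fix (fr K L (n1 + 1)) _ _ ξ (by rw [map_div₀, ht1fix, ht2fix])
      (by rw [map_div₀, ht1fix, ht3fix]) hξ
  refine ⟨n1 + 2, ?_⟩
  have hf : c0 d ξ 1 ≠ 0 := by
    intro h
    exact one_ne_zero (zeros_all L c Z0 (n1 + 2) ξ 1 hξ2 (map_one _) h).2
  exact initial_alg (fr K L (n1 + 2)) M d (hMfix _) (hdfix _) a b w ξ s cx cy t1 t2 t3
    (fr_mono K L (by omega) ha1) (fr_mono K L (by omega) hb1) (fr_mono K L (by omega) hw2) hξ2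
    hs hcx hcy ht1 ht2 ht3 hw hs0 ht10 hquad hf

end

theorem exists_curve_B {K : Type*} [Field K] [Fintype K] (m : K) (c : Fin 10 → K)
    (h2m : (2 : K) ≠ 0 ∨ m ≠ 0) (Z0 : ∀ a b : K, c0 c a b = 0 → a = 0 ∧ b = 0) :
    ∃ P : Fin 4 → K[X], cub (C m) (fun i => C (c i)) P = 0 ∧
      (∀ i, i ≠ 3 → (P i).eval 0 = 0) ∧ (P 3).eval 0 = 1 ∧ ∃ i, i ≠ 3 ∧ P i ≠ 0 := by
  classical
  let L := AlgebraicClosure K
  obtain ⟨n, hn⟩ := good_exists L m c h2m Z0
  obtain ⟨R, hR1, hR2, hR3, hR4, hR5⟩ := good_zero L m c Z0 n hn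
  have hinj : Function.Injective (algebraMap K L) := (algebraMap K L).injective
  have hlift : ∀ i, ∃ p : K[X], p.map (algebraMap K L) = R i := by
    intro i
    have h1 : R i ∈ Polynomial.lifts (algebraMap K L) := by
      rw [Polynomial.lifts_iff_coeff_lifts]
      intro k
      apply mem_range_of_fr_zero K L
      rw [← coeff_map, hR1 i]
    exact (Polynomial.mem_lifts _).mp h1
  choose P hP using hlift
  have hinjP : Function.Injective (mapRingHom (algebraMap K L)) := by
    simpa using Polynomial.map_injective _ hinj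
  refine ⟨P, ?_, ?_, ?_, ?_⟩
  · apply hinjP
    rw [map_cub, map_zero, ← hR2]
    apply cub_congr
    · simp
    · funext i; simp
    · funext i; exact hP i
  · intro i hi
    apply hinj
    rw [map_zero, ← hR3 i hi, ← hP i, ← coeff_zero_eq_eval_zero, ← coeff_zero_eq_eval_zero,
      coeff_map]
  · apply hinj
    rw [map_one, ← hR4, ← hP 3, ← coeff_zero_eq_eval_zero, ← coeff_zero_eq_eval_zero,
      coeff_map]
  · obtain ⟨i, hi, hRi⟩ := hR5
    refine ⟨i, hi, ?_⟩
    intro h
    apply hRi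
    rw [← hP i, h, Polynomial.map_zero]

end Part7

section Part8

open Polynomial


section NF
variable {A : Type*} [CommRing A]

/-- normal form of a cubic near a smooth point -/
def nf (q : Fin 6 → A) (c : Fin 10 → A) (P : Fin 4 → A) : A :=
  P 2 * P 3 ^ 2 + (q 0 * P 0 ^ 2 + q 1 * P 0 * P 1 + q 2 * P 1 ^ 2 + q 3 * P 0 * P 2
    + q 4 * P 1 * P 2 + q 5 * P 2 ^ 2) * P 3 + c3 c (P 0) (P 1) (P 2)

/-- its directional derivative at `P` in direction `Q` -/
def dnf (q : Fin 6 → A) (c : Fin 10 → A) (P Q : Fin 4 → A) : A :=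
  Q 0 * ((2 * q 0 * P 0 + q 1 * P 1 + q 3 * P 2) * P 3 + 3 * c 0 * P 0 ^ 2 + 2 * c 1 * P 0 * P 1
      + c 2 * P 1 ^ 2 + 2 * c 4 * P 0 * P 2 + c 5 * P 1 * P 2 + c 7 * P 2 ^ 2)
  + Q 1 * ((q 1 * P 0 + 2 * q 2 * P 1 + q 4 * P 2) * P 3 + c 1 * P 0 ^ 2 + 2 * c 2 * P 0 * P 1
      + 3 * c 3 * P 1 ^ 2 + c 5 * P 0 * P 2 + 2 * c 6 * P 1 * P 2 + c 8 * P 2 ^ 2)
  + Q 2 * (P 3 ^ 2 + (q 3 * P 0 + q 4 * P 1 + 2 * q 5 * P 2) * P 3 + c 4 * P 0 ^ 2
      + c 5 * P 0 * P 1 + c 6 * P 1 ^ 2 + 2 * c 7 * P 0 * P 2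
      + 2 * c 8 * P 1 * P 2 + 3 * c 9 * P 2 ^ 2)
  + Q 3 * (2 * P 2 * P 3 + (q 0 * P 0 ^ 2 + q 1 * P 0 * P 1 + q 2 * P 1 ^ 2 + q 3 * P 0 * P 2
    + q 4 * P 1 * P 2 + q 5 * P 2 ^ 2))

/-- shifted coefficients -/
def shq (q : Fin 6 → A) (l1 l2 l3 : A) : Fin 6 → A :=
  ![q 0, q 1, q 2, q 3 - 2 * l1, q 4 - 2 * l2, q 5 - 2 * l3]

def shc (q : Fin 6 → A) (c : Fin 10 → A) (l1 l2 l3 : A) : Fin 10 → A :=
  ![c 0 - q 0 * l1, c 1 - q 0 * l2 - q 1 * l1, c 2 - q 1 * l2 - q 2 * l1, c 3 - q 2 * l2,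
    c 4 - q 0 * l3 - q 3 * l1 + l1 ^ 2, c 5 - q 1 * l3 - q 3 * l2 - q 4 * l1 + 2 * l1 * l2,
    c 6 - q 2 * l3 - q 4 * l2 + l2 ^ 2, c 7 - q 3 * l3 - q 5 * l1 + 2 * l1 * l3,
    c 8 - q 4 * l3 - q 5 * l2 + 2 * l2 * l3, c 9 - q 5 * l3 + l3 ^ 2]

theorem nf_shift (q : Fin 6 → A) (c : Fin 10 → A) (l1 l2 l3 : A) (P : Fin 4 → A) :
    nf q c ![P 0, P 1, P 2, P 3 - l1 * P 0 - l2 * P 1 - l3 * P 2]
      = nf (shq q l1 l2 l3) (shc q c l1 l2 l3) P := by
  simp only [nf, c3, shq, shc, Matrix.cons_val]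
  ring

theorem map_nf {B : Type*} [CommRing B] (f : A →+* B) (q : Fin 6 → A)
    (c : Fin 10 → A) (P : Fin 4 → A) :
    f (nf q c P) = nf (fun i => f (q i)) (fun i => f (c i)) (fun i => f (P i)) := by
  simp only [nf, c3, map_add, map_mul, map_pow]

end NF

/-- There is a nonconstant polynomial curve through `(0,0,0,1)`. -/
def Has (K L : Type*) [Field K] [Field L] [Algebra K L] (q : Fin 6 → K) (c : Fin 10 → K) : Prop :=
  ∃ P : Fin 4 → K[X], nf (fun i => C (q i)) (fun i => C (c i)) P = 0 ∧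
    ∃ τ : L, (∀ i, i ≠ 3 → aeval τ (P i) = 0) ∧ aeval τ (P 3) ≠ 0 ∧ ∃ i, i ≠ 3 ∧ P i ≠ 0

section
variable {K : Type*} [Field K] (L : Type*) [Field L] [Algebra K L]

theorem has_shift (q : Fin 6 → K) (c : Fin 10 → K) (l1 l2 l3 : K)
    (h : Has K L (shq q l1 l2 l3) (shc q c l1 l2 l3)) : Has K L q c := by
  obtain ⟨P, hP, τ, h1, h2, i, hi, h3⟩ := h
  have h2C : (C 2 : K[X]) = 2 := map_ofNat C 2
  refine ⟨![P 0, P 1, P 2, P 3 - C l1 * P 0 - C l2 * P 1 - C l3 * P 2], ?_, τ, ?_, ?_, ?_⟩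
  · rw [nf_shift]
    rw [← hP]
    congr 1
    · funext i; fin_cases i <;> simp [shq, h2C]
    · funext i; fin_cases i <;> simp [shc, h2C]
  · intro j hj
    fin_cases j
    · exact h1 0 (by decide)
    · exact h1 1 (by decide)
    · exact h1 2 (by decide)
    · exact absurd rfl hj
  · have e0 := h1 0 (by decide)
    have e1 := h1 1 (by decide)
    have e2 := h1 2 (by decide)
    simpa [e0, e1, e2] using h2
  · refine ⟨i, hi, ?_⟩
    fin_cases i
    · exact h3
    · exact h3
    · exact h3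
    · exact absurd rfl hi

theorem caseL (q : Fin 6 → K) (c : Fin 10 → K) (s t : K) (hst : ¬ (s = 0 ∧ t = 0))
    (hq : q 0 * s ^ 2 + q 1 * s * t + q 2 * t ^ 2 = 0) (hc : c0 c s t = 0) : Has K L q c := by
  refine ⟨![C s * X, C t * X, 0, 1], ?_, 0, ?_, ?_, ?_⟩
  · have h1 := congrArg (C : K → K[X]) hq
    have h2 := congrArg (C : K → K[X]) hc
    simp only [c0, map_add, map_mul, map_pow, map_zero] at h1 h2
    simp only [nf, c3, Matrix.cons_val]
    linear_combination X ^ 2 * h1 + X ^ 3 * h2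
  · intro i hi
    fin_cases i
    · simp
    · simp
    · simp
    · exact absurd rfl hi
  · simp
  · by_cases hs : s = 0
    · refine ⟨1, by decide, ?_⟩
      have : t ≠ 0 := fun h => hst ⟨hs, h⟩
      simpa using this
    · refine ⟨0, by decide, ?_⟩
      simpa using hs

theorem caseG1 (q : Fin 6 → K) (c : Fin 10 → K) (hq0 : q 0 ≠ 0) (τ : L)
    (hq : algebraMap K L (q 0) * τ ^ 2 + algebraMap K L (q 1) * τ + algebraMap K L (q 2) = 0)
    (hc : c0 (fun i => algebraMap K L (c i)) τ 1 ≠ 0) : Has K L q c := by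
  set Q : K[X] := C (q 0) * X ^ 2 + C (q 1) * X + C (q 2) with hQ
  have hQne : Q ≠ 0 := by
    intro h
    have := congrArg (fun f : K[X] => f.coeff 2) h
    simp [hQ] at this
    exact hq0 this
  have hQτ : aeval τ Q = 0 := by
    rw [hQ]; simpa using hq
  refine ⟨![X * Q, Q, 0, - c0 (fun i => C (c i)) X 1], ?_, τ, ?_, ?_, ⟨1, by decide, ?_⟩⟩
  · simp only [nf, c3, c0, Matrix.cons_val]
    rw [hQ]; ring
  · intro i hi
    fin_cases i
    · simp [hQτ]
    · simpa using hQτ
    · simp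
    · exact absurd rfl hi
  · simp only [Matrix.cons_val]
    rw [map_neg, neg_ne_zero]
    have : aeval τ (c0 (fun i => C (c i)) (X : K[X]) 1)
        = c0 (fun i => algebraMap K L (c i)) τ 1 := by
      simp [c0]
    rw [this]; exact hc
  · simpa using hQne

theorem caseG2 (q : Fin 6 → K) (c : Fin 10 → K) (hq0 : q 0 = 0) (hq12 : ¬ (q 1 = 0 ∧ q 2 = 0))
    (hc : c 0 ≠ 0) : Has K L q c := by
  set Q : K[X] := C (q 1) * X + C (q 2) * X ^ 2 with hQ
  have hQne : Q ≠ 0 := by
    intro h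
    apply hq12
    constructor
    · have := congrArg (fun f : K[X] => f.coeff 1) h
      simpa [hQ, coeff_X_pow] using this
    · have := congrArg (fun f : K[X] => f.coeff 2) h
      simpa [hQ, coeff_X] using this
  refine ⟨![Q, X * Q, 0, - c0 (fun i => C (c i)) 1 X], ?_, 0, ?_, ?_, ⟨0, by decide, ?_⟩⟩
  · simp only [nf, c3, c0, Matrix.cons_val]
    rw [hQ, hq0, C_0]; ring
  · intro i hi
    fin_cases i
    · simp [hQ]
    · simp
    · simp
    · exact absurd rfl hi
  · simp only [Matrix.cons_val]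
    rw [map_neg, neg_ne_zero]
    simpa [c0] using hc
  · simpa using hQne

end

end Part8

section Part9

open Polynomial


theorem caseA_alg {A : Type*} [CommRing A] (q : Fin 6 → A) (c : Fin 10 → A) (a e k : A)
    (hc0 : c 0 = 0) (hc1 : c 1 = 0) (hc2 : c 2 = 0) (hc3 : c 3 = 0)
    (hκ : q 0 * a ^ 2 + q 1 * a + q 2 = e ^ 2 * k) (ρ Qd Rd Bq Br B G f0 f1 f2 f3 : A)
    (hρ : ρ = c 4 * a ^ 2 + c 5 * a + c 6)
    (hQd : Qd = q 0 + q 3 * e + q 5 * e ^ 2) (hRd : Rd = c 4 + c 7 * e + c 9 * e ^ 2)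
    (hBq : Bq = 2 * q 0 * a + q 1 + q 3 * a * e + q 4 * e)
    (hBr : Br = 2 * c 4 * a + c 5 + c 7 * a * e + c 8 * e)
    (hB : B = - ρ * Bq + e ^ 2 * k * Br)
    (hG : G = ρ ^ 2 - ρ * k * Qd + e ^ 2 * k ^ 2 * Rd)
    (h0 : f0 = e * (G * a - k * B)) (h1 : f1 = e * G) (h2 : f2 = - e ^ 2 * k * B)
    (h3 : f3 = ρ * B) :
    nf q c ![f0, f1, f2, f3] = 0 := by
  have hq : q 0 * f0 ^ 2 + q 1 * f0 * f1 + q 2 * f1 ^ 2 + q 3 * f0 * f2 + q 4 * f1 * f2
      + q 5 * f2 ^ 2 = e ^ 2 * (G ^ 2 * (e ^ 2 * k) - G * k * B * Bq + k ^ 2 * B ^ 2 * Qd) := by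
    rw [h0, h1, h2, hQd, hBq]
    linear_combination (e ^ 2 * G ^ 2) * hκ
  have hr : c 4 * f0 ^ 2 + c 5 * f0 * f1 + c 6 * f1 ^ 2 + c 7 * f0 * f2 + c 8 * f1 * f2
      + c 9 * f2 ^ 2 = e ^ 2 * (G ^ 2 * ρ - G * k * B * Br + k ^ 2 * B ^ 2 * Rd) := by
    rw [h0, h1, h2, hRd, hBr, hρ]
    ring
  have hfin : f2 * f3 ^ 2 + (q 0 * f0 ^ 2 + q 1 * f0 * f1 + q 2 * f1 ^ 2 + q 3 * f0 * f2
      + q 4 * f1 * f2 + q 5 * f2 ^ 2) * f3 + (c 4 * f0 ^ 2 + c 5 * f0 * f1 + c 6 * f1 ^ 2
      + c 7 * f0 * f2 + c 8 * f1 * f2 + c 9 * f2 ^ 2) * f2 = 0 := by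
    rw [hq, hr, h2, h3]
    linear_combination (e ^ 2 * k * B ^ 2 * B) * hG - (e ^ 2 * k * B ^ 2 * G) * hB
  simp only [nf, c3, Matrix.cons_val, hc0, hc1, hc2, hc3]
  linear_combination hfin

theorem cusp_alg {A : Type*} [CommRing A] (k3 k2 k1 k0 x0 s v x : A) (h2 : (2 : A) = 0)
    (ex0 : k3 * x0 ^ 2 = k1) (es : s ^ 2 = k3 * x0 + k2)
    (ev : v ^ 2 = k3 * x0 ^ 3 + k2 * x0 ^ 2 + k1 * x0 + k0) :
    x ^ 3 * (k3 ^ 2 + s * k3 * x + v * x ^ 3) ^ 2 + (k3 * (k3 * x + x0 * x ^ 3) ^ 3
      + k2 * (k3 * x + x0 * x ^ 3) ^ 2 * x ^ 3 + k1 * (k3 * x + x0 * x ^ 3) * (x ^ 3) ^ 2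
      + k0 * (x ^ 3) ^ 3) = 0 := by
  linear_combination (k3^4*x^3+k3^3*s*x^4+(2*k3^3*x0+k2*k3^2)*x^5+k3^2*v*x^6
    +(2*k3^2*x0^2+s*k3*v+k2*k3*x0)*x^7+(k3*x0^3+k2*x0^2+k1*x0+k0)*x^9)*h2 + k3^2*x^5*es
    - k3*x^7*ex0 + x^9*ev

section
variable {K : Type*} [Field K] [Finite K] (L : Type*) [Field L] [Algebra K L]

/-- pair of conjugate lines -/
theorem caseA (q : Fin 6 → K) (c : Fin 10 → K) (hq0 : q 0 ≠ 0)
    (hno : ∀ x : K, q 0 * x ^ 2 + q 1 * x + q 2 ≠ 0)
    (h0 : c 0 = 0) (h1 : c 1 = 0) (h2 : c 2 = 0) (h3 : c 3 = 0) (τ : L)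
    (hτ : algebraMap K L (q 0) * τ ^ 2 + algebraMap K L (q 1) * τ + algebraMap K L (q 2) = 0)
    (hsm : algebraMap K L (c 4) * τ ^ 2 + algebraMap K L (c 5) * τ + algebraMap K L (c 6) ≠ 0) :
    Has K L q c := by
  obtain ⟨e, he⟩ : ∃ e : K[X], e = C (q 0) * X ^ 2 + C (q 1) * X + C (q 2) := ⟨_, rfl⟩
  have hdeg : e.natDegree = 2 := by
    rw [he]; compute_degree!
  have hirr : Irreducible e := by
    apply Polynomial.irreducible_of_degree_le_three_of_not_isRoot
    · rw [hdeg]; decide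
    · intro x hx
      apply hno x
      simpa [he] using hx
  have hsep : e.Separable := PerfectField.separable_of_irreducible hirr
  obtain ⟨k, h, hkh⟩ := hsep
  have hde : derivative e = 2 * C (q 0) * X + C (q 1) := by
    rw [he]; simp; ring
  rw [hde] at hkh
  have hene : e ≠ 0 := hirr.ne_zero
  obtain ⟨a, ha⟩ : ∃ a : K[X], a = X - e * h := ⟨_, rfl⟩
  obtain ⟨k1, hk1⟩ : ∃ k1 : K[X], k1 = k + C (q 0) * h ^ 2 := ⟨_, rfl⟩
  have hκ : C (q 0) * a ^ 2 + C (q 1) * a + C (q 2) = e ^ 2 * k1 := by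
    have : C (q 0) * a ^ 2 + C (q 1) * a + C (q 2)
        = e - e * h * (2 * C (q 0) * X + C (q 1)) + C (q 0) * e ^ 2 * h ^ 2 := by
      rw [ha]
      linear_combination - he
    rw [this, hk1]
    linear_combination (-e) * hkh
  have hk1ne : k1 ≠ 0 := by
    intro hk
    rw [hk, mul_zero] at hκ
    have := congrArg (eval 0) hκ
    simp only [eval_add, eval_mul, eval_C, eval_pow, eval_zero] at this
    exact hno _ this
  have heτ : aeval τ e = 0 := by rw [he]; simpa using hτ
  have haτ : aeval τ a = τ := by rw [ha]; simp [heτ]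
  have hder : (2 * algebraMap K L (q 0) * τ + algebraMap K L (q 1)) ≠ 0 := by
    intro hz
    have := congrArg (aeval τ) hkh
    simp only [map_add, map_mul, map_ofNat, aeval_C, aeval_X, heτ, hz, map_one, mul_zero,
      add_zero] at this
    exact zero_ne_one this
  obtain ⟨ρ, hρ⟩ : ∃ ρ : K[X], ρ = C (c 4) * a ^ 2 + C (c 5) * a + C (c 6) := ⟨_, rfl⟩
  obtain ⟨Qd, hQd⟩ : ∃ Qd : K[X], Qd = C (q 0) + C (q 3) * e + C (q 5) * e ^ 2 := ⟨_, rfl⟩
  obtain ⟨Rd, hRd⟩ : ∃ Rd : K[X], Rd = C (c 4) + C (c 7) * e + C (c 9) * e ^ 2 := ⟨_, rfl⟩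
  obtain ⟨Bq, hBq⟩ : ∃ Bq : K[X], Bq = 2 * C (q 0) * a + C (q 1) + C (q 3) * a * e
    + C (q 4) * e := ⟨_, rfl⟩
  obtain ⟨Br, hBr⟩ : ∃ Br : K[X], Br = 2 * C (c 4) * a + C (c 5) + C (c 7) * a * e
    + C (c 8) * e := ⟨_, rfl⟩
  obtain ⟨B, hB⟩ : ∃ B : K[X], B = - ρ * Bq + e ^ 2 * k1 * Br := ⟨_, rfl⟩
  obtain ⟨G, hG⟩ : ∃ G : K[X], G = ρ ^ 2 - ρ * k1 * Qd + e ^ 2 * k1 ^ 2 * Rd := ⟨_, rfl⟩
  have hρτ : aeval τ ρ ≠ 0 := by
    rw [hρ]; simpa [haτ] using hsm
  have hBτ : aeval τ B ≠ 0 := by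
    have : aeval τ B = - (aeval τ ρ) * (2 * algebraMap K L (q 0) * τ + algebraMap K L (q 1)) := by
      rw [hB, hBq]
      simp only [map_add, map_mul, map_neg, map_pow, map_ofNat, aeval_C, heτ, haτ]
      ring
    rw [this]
    exact mul_ne_zero (neg_ne_zero.mpr hρτ) hder
  have hBne : B ≠ 0 := by
    intro hz; rw [hz] at hBτ; simp at hBτ
  refine ⟨![e * (G * a - k1 * B), e * G, - e ^ 2 * k1 * B, ρ * B], ?_, τ, ?_, ?_,
    ⟨2, by decide, ?_⟩⟩
  · exact caseA_alg (fun i => C (q i)) (fun i => C (c i)) a e k1 (by simp [h0]) (by simp [h1])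
      (by simp [h2]) (by simp [h3]) hκ ρ Qd Rd Bq Br B G _ _ _ _
      hρ hQd hRd hBq hBr hB hG rfl rfl rfl rfl
  · intro i hi
    fin_cases i
    · simp [heτ]
    · simp [heτ]
    · simp [heτ]
    · exact absurd rfl hi
  · simp only [Matrix.cons_val, map_mul]
    exact mul_ne_zero hρτ hBτ
  · simp only [Matrix.cons_val]
    exact mul_ne_zero (mul_ne_zero (neg_ne_zero.mpr (pow_ne_zero _ hene)) hk1ne) hBne

end

section
variable {K : Type*} [Field K] [Finite K] (L : Type*) [Field L] [Algebra K L]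

omit [Finite K] in
theorem charP_two (h2 : (2 : K) = 0) : CharP K 2 := by
  have hp : ringChar K ∣ 2 := by
    rw [← CharP.cast_eq_zero_iff K (ringChar K)]
    exact_mod_cast h2
  have h1 : ringChar K = 2 := by
    rcases (Nat.dvd_prime Nat.prime_two).mp hp with h | h
    · exact absurd h (CharP.ringChar_ne_one)
    · exact h
  rw [← h1]; infer_instance

theorem exists_sq (h2 : (2 : K) = 0) (x : K) : ∃ y, y ^ 2 = x := by
  have := charP_two h2
  have : ExpChar K 2 := .prime Nat.prime_two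
  obtain ⟨g, hg⟩ := surjective_frobenius K 2 x
  exact ⟨g, by rwa [frobenius_def] at hg⟩

/-- characteristic two, plane section with a cusp -/
theorem caseCusp (q : Fin 6 → K) (c : Fin 10 → K) (h2 : (2 : K) = 0)
    (hq0 : q 0 = 0) (hq1 : q 1 = 0) (hq2 : q 2 = 0) (α β p r : K)
    (hαβ : c0 c α β ≠ 0) (h1 : q 3 * α + q 4 * β = 0) (h3 : q 3 * p + q 4 * r + q 5 = 0) :
    Has K L q c := by
  obtain ⟨k3, hk3⟩ : ∃ k3 : K, k3 = c0 c α β := ⟨_, rfl⟩
  obtain ⟨k2, hk2⟩ : ∃ k2 : K, k2 = 3 * c 0 * α ^ 2 * p + c 1 * (2 * α * p * β + α ^ 2 * r)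
    + c 2 * (p * β ^ 2 + 2 * α * β * r) + 3 * c 3 * β ^ 2 * r + c 4 * α ^ 2 + c 5 * α * β
    + c 6 * β ^ 2 := ⟨_, rfl⟩
  obtain ⟨k1, hk1⟩ : ∃ k1 : K, k1 = 3 * c 0 * α * p ^ 2 + c 1 * (p ^ 2 * β + 2 * α * p * r)
    + c 2 * (α * r ^ 2 + 2 * p * β * r) + 3 * c 3 * β * r ^ 2 + 2 * c 4 * α * p
    + c 5 * (α * r + p * β) + 2 * c 6 * β * r + c 7 * α + c 8 * β := ⟨_, rfl⟩
  obtain ⟨k0, hk0⟩ : ∃ k0 : K, k0 = c3 c p r 1 := ⟨_, rfl⟩
  have hk3ne : k3 ≠ 0 := by rw [hk3]; exact hαβ
  obtain ⟨x0, hx0⟩ := exists_sq h2 (k1 / k3)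
  have hx0' : k3 * x0 ^ 2 = k1 := by rw [hx0]; field_simp
  obtain ⟨s, hs⟩ := exists_sq h2 (k3 * x0 + k2)
  obtain ⟨v, hv⟩ := exists_sq h2 (k3 * x0 ^ 3 + k2 * x0 ^ 2 + k1 * x0 + k0)
  obtain ⟨Y, hY⟩ : ∃ Y : K[X], Y = C k3 * X + C x0 * X ^ 3 := ⟨_, rfl⟩
  refine ⟨![C α * Y + C p * X ^ 3, C β * Y + C r * X ^ 3, X ^ 3,
    C k3 ^ 2 + C s * C k3 * X + C v * X ^ 3], ?_, 0, ?_, ?_, ⟨2, by decide, ?_⟩⟩
  · have e1 := congrArg (C : K → K[X]) h1
    have e3 := congrArg (C : K → K[X]) h3
    have e2 := congrArg (C : K → K[X]) h2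
    have ex0 := congrArg (C : K → K[X]) hx0'
    have es := congrArg (C : K → K[X]) hs
    have ev := congrArg (C : K → K[X]) hv
    have ek3 := congrArg (C : K → K[X]) hk3
    have ek2 := congrArg (C : K → K[X]) hk2
    have ek1 := congrArg (C : K → K[X]) hk1
    have ek0 := congrArg (C : K → K[X]) hk0
    simp only [c0, c3, map_add, map_mul, map_pow, map_zero, map_ofNat, map_one] at e1 e3 e2 ex0 es ev ek3 ek2 ek1 ek0
    have hmain := cusp_alg (C k3) (C k2) (C k1) (C k0) (C x0) (C s) (C v) (X : K[X]) e2 ex0 es ev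
    rw [← hY] at hmain
    have key : c3 (fun i => C (c i)) (C α * Y + C p * X ^ 3) (C β * Y + C r * X ^ 3) (X ^ 3)
        = C k3 * Y ^ 3 + C k2 * Y ^ 2 * X ^ 3 + C k1 * Y * (X ^ 3) ^ 2 + C k0 * (X ^ 3) ^ 3 := by
      rw [ek3, ek2, ek1, ek0]
      simp only [c3]
      ring
    have hlin : (0 * (C α * Y + C p * X ^ 3) ^ 2
        + 0 * (C α * Y + C p * X ^ 3) * (C β * Y + C r * X ^ 3) + 0 * (C β * Y + C r * X ^ 3) ^ 2
        + C (q 3) * (C α * Y + C p * X ^ 3) * X ^ 3 + C (q 4) * (C β * Y + C r * X ^ 3) * X ^ 3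
        + C (q 5) * (X ^ 3) ^ 2 : K[X]) = 0 := by
      linear_combination (Y * X ^ 3) * e1 + (X ^ 3) ^ 2 * e3
    simp only [nf, Matrix.cons_val, hq0, hq1, hq2, C_0]
    rw [key, hlin, zero_mul, add_zero]
    exact hmain
  · intro i hi
    fin_cases i
    · simp [hY]
    · simp [hY]
    · simp
    · exact absurd rfl hi
  · simp only [Matrix.cons_val]
    simpa using hk3ne
  · simp

end

end Part9

section Part10

open Polynomial


theorem has_of_B {K : Type*} [Field K] [Finite K] (L : Type*) [Field L] [Algebra K L]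
    (q : Fin 6 → K) (c : Fin 10 → K) (h2m : (2 : K) ≠ 0 ∨ q 5 ≠ 0)
    (h0 : q 0 = 0) (h1 : q 1 = 0) (h2 : q 2 = 0) (h3 : q 3 = 0) (h4 : q 4 = 0)
    (Z0 : ∀ a b : K, c0 c a b = 0 → a = 0 ∧ b = 0) : Has K L q c := by
  have := Fintype.ofFinite K
  obtain ⟨P, hP, hP0, hP3, hne⟩ := exists_curve_B (q 5) c h2m Z0
  refine ⟨P, ?_, 0, ?_, ?_, hne⟩
  · simp only [cub] at hP
    simp only [nf, h0, h1, h2, h3, h4, C_0]
    linear_combination hP
  · intro i hi
    have := hP0 i hi
    rw [← map_zero (algebraMap K L), aeval_algebraMap_apply, coe_aeval_eq_eval, this, map_zero]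
  · rw [← map_zero (algebraMap K L), aeval_algebraMap_apply, coe_aeval_eq_eval, hP3, map_one,
      map_zero]
    exact one_ne_zero

theorem main_nf {K : Type*} [Field K] [Finite K] (L : Type*) [Field L] [Algebra K L]
    [IsAlgClosed L] (q : Fin 6 → K) (c : Fin 10 → K)
    (hsm : ∀ v : Fin 4 → L, v ≠ 0 →
      nf (fun i => algebraMap K L (q i)) (fun i => algebraMap K L (c i)) v = 0 →
      ∃ u, dnf (fun i => algebraMap K L (q i)) (fun i => algebraMap K L (c i)) v u ≠ 0) :
    Has K L q c := by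
  by_cases hL : ∃ s t : K, ¬ (s = 0 ∧ t = 0) ∧ q 0 * s ^ 2 + q 1 * s * t + q 2 * t ^ 2 = 0 ∧
      c0 c s t = 0
  · obtain ⟨s, t, hst, h1, h2⟩ := hL
    exact caseL L q c s t hst h1 h2
  have hno : ∀ s t : K, ¬ (s = 0 ∧ t = 0) → q 0 * s ^ 2 + q 1 * s * t + q 2 * t ^ 2 = 0 →
      c0 c s t ≠ 0 := by
    intro s t hst h1 h2
    exact hL ⟨s, t, hst, h1, h2⟩
  by_cases hqz : q 0 = 0 ∧ q 1 = 0 ∧ q 2 = 0
  · obtain ⟨hq0, hq1, hq2⟩ := hqz
    have Z0 : ∀ a b : K, c0 c a b = 0 → a = 0 ∧ b = 0 := by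
      intro a b h
      by_contra hcon
      exact hno a b hcon (by rw [hq0, hq1, hq2]; ring) h
    by_cases h2 : (2 : K) = 0
    · by_cases h34 : q 3 = 0 ∧ q 4 = 0
      · by_cases h5 : q 5 = 0
        · refine caseCusp L q c h2 hq0 hq1 hq2 1 0 0 0 ?_ ?_ ?_
          · intro h; exact one_ne_zero (Z0 1 0 h).1
          · rw [h34.1]; ring
          · rw [h5]; ring
        · exact has_of_B L q c (Or.inr h5) hq0 hq1 hq2 h34.1 h34.2 Z0
      · have hαβ : c0 c (q 4) (- q 3) ≠ 0 := by
          intro h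
          obtain ⟨ha, hb⟩ := Z0 _ _ h
          exact h34 ⟨neg_eq_zero.mp hb, ha⟩
        by_cases h3 : q 3 = 0
        · have h4 : q 4 ≠ 0 := fun h => h34 ⟨h3, h⟩
          refine caseCusp L q c h2 hq0 hq1 hq2 (q 4) (- q 3) 0 (- q 5 / q 4) hαβ ?_ ?_
          · ring
          · field_simp; ring
        · refine caseCusp L q c h2 hq0 hq1 hq2 (q 4) (- q 3) (- q 5 / q 3) 0 hαβ ?_ ?_
          · ring
          · field_simp; ring
    · refine has_shift L q c (q 3 / 2) (q 4 / 2) (q 5 / 2) ?_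
      refine has_of_B L _ _ (Or.inl h2) ?_ ?_ ?_ ?_ ?_ ?_
      · simp [shq, hq0]
      · simp [shq, hq1]
      · simp [shq, hq2]
      · simp only [shq, Matrix.cons_val]; field_simp; ring
      · simp only [shq, Matrix.cons_val]; field_simp; ring
      · intro a b h
        apply Z0
        rw [← h]
        simp [c0, shc, hq0, hq1, hq2]
  · by_cases hq0 : q 0 = 0
    · refine caseG2 L q c hq0 (fun h => hqz ⟨hq0, h.1, h.2⟩) ?_
      have := hno 1 0 (fun h => one_ne_zero h.1) (by rw [hq0]; ring)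
      intro h
      apply this
      simp [c0, h]
    · by_cases hroot : ∃ x : K, q 0 * x ^ 2 + q 1 * x + q 2 = 0
      · obtain ⟨x, hx⟩ := hroot
        refine caseG1 L q c hq0 (algebraMap K L x) ?_ ?_
        · rw [← map_pow, ← map_mul, ← map_mul, ← map_add, ← map_add, hx, map_zero]
        · have h1 := hno x 1 (fun h => one_ne_zero h.2) (by rw [← hx]; ring)
          intro h
          apply h1
          apply (algebraMap K L).injective
          rw [map_c0, map_zero, map_one]
          exact h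
      · push Not at hroot
        obtain ⟨τ, hτ'⟩ := exists_quad_root (algebraMap K L (q 1) / algebraMap K L (q 0))
          (algebraMap K L (q 2) / algebraMap K L (q 0))
        have hq0L : algebraMap K L (q 0) ≠ 0 := by simpa using hq0
        have hτ : algebraMap K L (q 0) * τ ^ 2 + algebraMap K L (q 1) * τ
            + algebraMap K L (q 2) = 0 := by
          field_simp at hτ'
          linear_combination hτ'
        by_cases hc : c0 (fun i => algebraMap K L (c i)) τ 1 = 0
        · obtain ⟨l1, hl1⟩ : ∃ l1, l1 = c 0 / q 0 := ⟨_, rfl⟩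
          obtain ⟨l2, hl2⟩ : ∃ l2, l2 = (c 1 - q 1 * l1) / q 0 := ⟨_, rfl⟩
          have e0 : c 0 = q 0 * l1 := by rw [hl1]; field_simp
          have e1 : c 1 = q 0 * l2 + q 1 * l1 := by rw [hl2]; field_simp; ring
          have hrem : algebraMap K L (c 2 - q 1 * l2 - q 2 * l1) * τ
              + algebraMap K L (c 3 - q 2 * l2) = 0 := by
            have e0' := congrArg (algebraMap K L) e0
            have e1' := congrArg (algebraMap K L) e1
            simp only [c0, map_add, map_mul, map_sub] at e0' e1' hc ⊢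
            linear_combination hc - (algebraMap K L l1 * τ + algebraMap K L l2) * hτ
              - τ ^ 3 * e0' - τ ^ 2 * e1'
          have e2' : c 2 - q 1 * l2 - q 2 * l1 = 0 := by
            by_contra hne
            have hneL : algebraMap K L (c 2 - q 1 * l2 - q 2 * l1) ≠ 0 := by
              rwa [Ne, map_eq_zero]
            have hτK : τ = algebraMap K L (- (c 3 - q 2 * l2) / (c 2 - q 1 * l2 - q 2 * l1)) := by
              rw [map_div₀, map_neg, eq_div_iff hneL]
              linear_combination hrem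
            apply hroot (- (c 3 - q 2 * l2) / (c 2 - q 1 * l2 - q 2 * l1))
            apply (algebraMap K L).injective
            rw [map_add, map_add, map_mul, map_mul, map_pow, ← hτK, hτ, map_zero]
          have e3' : c 3 - q 2 * l2 = 0 := by
            rw [e2', map_zero, zero_mul, zero_add, map_eq_zero] at hrem
            exact hrem
          have e2 : c 2 = q 1 * l2 + q 2 * l1 := by linear_combination e2'
          have e3 : c 3 = q 2 * l2 := by linear_combination e3'
          refine has_shift L q c l1 l2 0 ?_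
          refine caseA L _ _ ?_ ?_ ?_ ?_ ?_ ?_ τ ?_ ?_
          · simpa [shq] using hq0
          · intro x; simpa [shq] using hroot x
          · simp only [shc, Matrix.cons_val]; rw [e0]; ring
          · simp only [shc, Matrix.cons_val]; rw [e1]; ring
          · simp only [shc, Matrix.cons_val]; rw [e2]; ring
          · simp only [shc, Matrix.cons_val]; rw [e3]; ring
          · simpa [shq] using hτ
          · intro hz
            obtain ⟨u, hu⟩ := hsm ![τ, 1, 0, - (algebraMap K L l1 * τ + algebraMap K L l2)]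
              (by
                intro h
                have := congrFun h 1
                simp at this)
              (by
                have hc' := hc
                simp only [c0] at hc'
                simp only [nf, c3, Matrix.cons_val]
                linear_combination hc'
                  - (algebraMap K L l1 * τ + algebraMap K L l2) * hτ)
            apply hu
            have e0L := congrArg (algebraMap K L) e0
            have e1L := congrArg (algebraMap K L) e1
            have e2L := congrArg (algebraMap K L) e2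
            have e3L := congrArg (algebraMap K L) e3
            simp only [shc, Matrix.cons_val, map_add, map_sub, map_mul, map_pow, map_ofNat,
              map_zero] at e0L e1L e2L e3L hz
            simp only [dnf, Matrix.cons_val]
            linear_combination u 0 * (3 * τ ^ 2 * e0L + 2 * τ * e1L + e2L
                + algebraMap K L l1 * hτ)
              + u 1 * (τ ^ 2 * e1L + 2 * τ * e2L + 3 * e3L + algebraMap K L l2 * hτ)
              + u 2 * hz + u 3 * hτ
        · exact caseG1 L q c hq0 τ hτ hc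

end Part10

section Part11

open MvPolynomial


section
variable {K : Type*} [Field K]

theorem exists_T (F : MvPolynomial (Fin 4) K) (hF : F.IsHomogeneous 3) :
    ∃ T : Fin 4 → Fin 4 → Fin 4 → K, F = ∑ i, ∑ j, ∑ k, C (T i j k) * X i * X j * X k := by
  classical
  rw [F.as_sum]
  have key : ∀ s : Finset (Fin 4 →₀ ℕ), s ⊆ F.support →
      ∃ T : Fin 4 → Fin 4 → Fin 4 → K,
        ∑ m ∈ s, monomial m (coeff m F) = ∑ i, ∑ j, ∑ k, C (T i j k) * X i * X j * X k := by
    intro s
    induction s using Finset.induction_on with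
    | empty => intro _; exact ⟨0, by simp⟩
    | insert m s hm ih =>
      intro hs
      obtain ⟨T, hT⟩ := ih (fun x hx => hs (Finset.mem_insert_of_mem hx))
      have hmF : coeff m F ≠ 0 := by
        have := hs (Finset.mem_insert_self m s)
        rwa [mem_support_iff] at this
      have hdeg : m.degree = 3 := by
        have h1 := hF hmF
        rw [Finsupp.degree_eq_weight_one]
        exact h1
      -- decompose
      have hdec : ∀ (m : Fin 4 →₀ ℕ) (n : ℕ), m.degree = n + 1 →
          ∃ i m', m = Finsupp.single i 1 + m' ∧ m'.degree = n := by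
        intro m n hmn
        have hne : m ≠ 0 := by
          rintro rfl; simp at hmn
        obtain ⟨i, hi⟩ := Finsupp.ne_iff.mp hne
        refine ⟨i, m - Finsupp.single i 1, ?_, ?_⟩
        · rw [add_tsub_cancel_of_le]
          rw [Finsupp.single_le_iff]
          exact Nat.one_le_iff_ne_zero.mpr (by simpa using hi)
        · have h1 : m = Finsupp.single i 1 + (m - Finsupp.single i 1) := by
            rw [add_tsub_cancel_of_le]
            rw [Finsupp.single_le_iff]
            exact Nat.one_le_iff_ne_zero.mpr (by simpa using hi)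
          have h2 := congrArg Finsupp.degree h1
          rw [map_add, Finsupp.degree_single, hmn] at h2
          omega
      obtain ⟨i, m1, rfl, h1⟩ := hdec m 2 hdeg
      obtain ⟨j, m2, rfl, h2⟩ := hdec m1 1 h1
      obtain ⟨k, m3, rfl, h3⟩ := hdec m2 0 h2
      have hm3 : m3 = 0 := by rwa [Finsupp.degree_eq_zero_iff] at h3
      subst hm3
      set a := coeff (Finsupp.single i 1 + (Finsupp.single j 1 + (Finsupp.single k 1 + 0))) F with ha
      refine ⟨fun i' j' k' => (if i' = i ∧ j' = j ∧ k' = k then a else 0) + T i' j' k', ?_⟩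
      rw [Finset.sum_insert hm, hT]
      simp only [C_add, add_mul, Finset.sum_add_distrib]
      congr 1
      rw [Finset.sum_eq_single i, Finset.sum_eq_single j, Finset.sum_eq_single k]
      · simp only [and_self, if_true]
        rw [← ha, add_zero]
        rw [← mul_one a, ← mul_one (a * 1), ← mul_one (a * 1 * 1)]
        simp only [X, C_apply, monomial_mul, mul_one, zero_add]
        congr 1
        rw [add_assoc]
      · intro b _ hb; simp [hb]
      · simp
      · intro b _ hb; simp [hb]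
      · simp
      · intro b _ hb; simp [hb]
      · simp
  exact key F.support (Finset.Subset.refl _)

end

end Part11

section Part12

open Polynomial


/-- derivative along a line -/
theorem line_deriv {σ K L : Type*} [Fintype σ] [DecidableEq σ] [Field K] [Field L] [Algebra K L]
    (v u : σ → L) (p : MvPolynomial σ K) :
    (MvPolynomial.aeval (fun i => (C (v i) + C (u i) * X : L[X])) p).eval 0
      = MvPolynomial.aeval v p ∧
    (derivative (MvPolynomial.aeval (fun i => (C (v i) + C (u i) * X : L[X])) p)).eval 0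
      = ∑ l, u l * MvPolynomial.aeval v (MvPolynomial.pderiv l p) := by
  induction p using MvPolynomial.induction_on with
  | C a => simp [Polynomial.algebraMap_apply]
  | add p q hp hq =>
    constructor
    · rw [map_add, eval_add, hp.1, hq.1, map_add]
    · rw [map_add, derivative_add, eval_add, hp.2, hq.2, ← Finset.sum_add_distrib]
      refine Finset.sum_congr rfl fun l _ => ?_
      rw [map_add, map_add]; ring
  | mul_X p i hp =>
    constructor
    · rw [map_mul, eval_mul, hp.1, map_mul, MvPolynomial.aeval_X, MvPolynomial.aeval_X]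
      simp
    · rw [map_mul, derivative_mul, eval_add, eval_mul, eval_mul, hp.2, hp.1, MvPolynomial.aeval_X]
      have h1 : (C (v i) + C (u i) * X : L[X]).eval 0 = v i := by simp
      have h2 : (derivative (C (v i) + C (u i) * X : L[X])).eval 0 = u i := by simp
      rw [h1, h2, Finset.sum_mul]
      have h3 : ∀ l, u l * MvPolynomial.aeval v (MvPolynomial.pderiv l (p * MvPolynomial.X i))
          = u l * MvPolynomial.aeval v (MvPolynomial.pderiv l p) * v i
            + (if l = i then u i * MvPolynomial.aeval v p else 0) := by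
        intro l
        rw [Derivation.leibniz, MvPolynomial.pderiv_X]
        simp only [smul_eq_mul, map_add, map_mul, MvPolynomial.aeval_X]
        by_cases h : l = i
        · subst h; simp; ring
        · simp [h, Ne.symm h]; ring
      rw [Finset.sum_congr rfl fun l _ => h3 l, Finset.sum_add_distrib]
      simp
      ring

theorem dnf_line {L : Type*} [Field L] (q : Fin 6 → L) (c : Fin 10 → L) (v u : Fin 4 → L) :
    (derivative (nf (fun i => (C (q i) : L[X])) (fun i => C (c i))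
      (fun i => C (v i) + C (u i) * X))).eval 0 = dnf q c v u := by
  simp only [nf, c3, derivative_add, derivative_mul, derivative_pow, derivative_C, derivative_X,
    eval_add, eval_mul, eval_pow, eval_C, eval_X, eval_zero, eval_one, dnf]
  simp
  ring

end Part12

section Part13

theorem exists_perm : ∀ i j : Fin 4, i ≠ j → ∃ σ : Equiv.Perm (Fin 4), σ 2 = i ∧ σ 3 = j := by
  decide

theorem exists_basis {K : Type*} [Field K] (g x : Fin 4 → K) (hg : g ≠ 0) (hx : x ≠ 0)
    (hgx : ∑ i, g i * x i = 0) :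
    ∃ B B' : Matrix (Fin 4) (Fin 4) K, B * B' = 1 ∧ B' * B = 1 ∧ (∀ i, B i 3 = x i) ∧
      ∑ i, g i * B i 0 = 0 ∧ ∑ i, g i * B i 1 = 0 ∧ ∑ i, g i * B i 2 = 1 := by
  classical
  obtain ⟨i0, hi0⟩ : ∃ i, g i ≠ 0 := by
    by_contra h; push Not at h; exact hg (funext h)
  obtain ⟨j0, hj0, hij⟩ : ∃ j, x j ≠ 0 ∧ i0 ≠ j := by
    by_contra h
    push Not at h
    have h1 : ∀ j, j ≠ i0 → x j = 0 := by
      intro j hj
      by_contra hne
      exact hj (h j hne).symm
    have h2 : g i0 * x i0 = 0 := by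
      rw [← hgx]
      symm
      apply Finset.sum_eq_single i0
      · intro b _ hb; rw [h1 b hb, mul_zero]
      · simp
    have h3 : x i0 = 0 := (mul_eq_zero.mp h2).resolve_left hi0
    apply hx
    funext j
    by_cases hj : j = i0
    · rw [hj, h3]; rfl
    · rw [h1 j hj]; rfl
  obtain ⟨σ, hσ2, hσ3⟩ := exists_perm i0 j0 hij
  set B : Matrix (Fin 4) (Fin 4) K := Matrix.of fun r a =>
    match a with
    | 0 => (if r = σ 0 then 1 else 0) - (g (σ 0) / g i0) * (if r = σ 2 then 1 else 0)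
    | 1 => (if r = σ 1 then 1 else 0) - (g (σ 1) / g i0) * (if r = σ 2 then 1 else 0)
    | 2 => (1 / g i0) * (if r = σ 2 then 1 else 0)
    | 3 => x r with hB
  have hB0 : ∀ r, B r 0 = (if r = σ 0 then 1 else 0) - (g (σ 0) / g i0) * (if r = σ 2 then 1 else 0) :=
    fun r => rfl
  have hB1 : ∀ r, B r 1 = (if r = σ 1 then 1 else 0) - (g (σ 1) / g i0) * (if r = σ 2 then 1 else 0) :=
    fun r => rfl
  have hB2 : ∀ r, B r 2 = (1 / g i0) * (if r = σ 2 then 1 else 0) := fun r => rfl
  have hB3 : ∀ r, B r 3 = x r := fun r => rfl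
  have hinj : Function.Injective B.mulVec := by
    rw [← Matrix.coe_mulVecLin, injective_iff_map_eq_zero]
    intro v hv
    have hv' : ∀ r, B r 0 * v 0 + B r 1 * v 1 + B r 2 * v 2 + B r 3 * v 3 = 0 := by
      intro r
      have := congrFun hv r
      simpa [Matrix.mulVec, dotProduct, Fin.sum_univ_four] using this
    have e3 := hv' (σ 3)
    rw [hB0, hB1, hB2, hB3] at e3
    simp [σ.injective.eq_iff] at e3
    have hv3 : v 3 = 0 := by
      rcases e3 with h | h
      · rw [hσ3] at h; exact absurd h hj0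
      · exact h
    have e0 := hv' (σ 0)
    rw [hB0, hB1, hB2, hB3] at e0
    simp [σ.injective.eq_iff, hv3] at e0
    have e1 := hv' (σ 1)
    rw [hB0, hB1, hB2, hB3] at e1
    simp [σ.injective.eq_iff, hv3] at e1
    have e2 := hv' (σ 2)
    rw [hB0, hB1, hB2, hB3] at e2
    simp [σ.injective.eq_iff, hv3, e0, e1, hi0] at e2
    funext r
    fin_cases r
    · exact e0
    · exact e1
    · exact e2
    · exact hv3
  have hunit : IsUnit B := Matrix.mulVec_injective_iff_isUnit.mp hinj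
  obtain ⟨U, hU⟩ := hunit
  refine ⟨B, (U⁻¹ : (Matrix (Fin 4) (Fin 4) K)ˣ), ?_, ?_, hB3, ?_, ?_, ?_⟩
  · rw [← hU]; exact Units.mul_inv U
  · rw [← hU]; exact Units.inv_mul U
  · simp only [hB0, mul_sub, Finset.sum_sub_distrib]
    simp only [mul_ite, mul_one, mul_zero, Finset.sum_ite_eq', Finset.mem_univ, if_true, hσ2]
    field_simp
    ring
  · simp only [hB1, mul_sub, Finset.sum_sub_distrib]
    simp only [mul_ite, mul_one, mul_zero, Finset.sum_ite_eq', Finset.mem_univ, if_true, hσ2]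
    field_simp
    ring
  · simp only [hB2]
    simp only [mul_ite, mul_one, mul_zero, Finset.sum_ite_eq', Finset.mem_univ, if_true, hσ2]
    field_simp

end Part13

section Part14

open MvPolynomial in
theorem exists_nf {K : Type u} [Field K] (F : MvPolynomial (Fin 4) K) (hF : F.IsHomogeneous 3)
    (B : Fin 4 → Fin 4 → K) (x : Fin 4 → K) (hB3 : ∀ i, B i 3 = x i)
    (hFx : eval x F = 0) (h0 : ∑ l, B l 0 * eval x (pderiv l F) = 0)
    (h1 : ∑ l, B l 1 * eval x (pderiv l F) = 0) (h2 : ∑ l, B l 2 * eval x (pderiv l F) = 1) :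
    ∃ (q : Fin 6 → K) (c : Fin 10 → K), ∀ (A : Type u) [CommRing A] [Algebra K A] (P : Fin 4 → A),
      aeval (fun i => ∑ a, algebraMap K A (B i a) * P a) F
        = nf (fun i => algebraMap K A (q i)) (fun i => algebraMap K A (c i)) P := by
  set G : MvPolynomial (Fin 4) K := aeval (fun i => ∑ a, (C (B i a) * X a : MvPolynomial (Fin 4) K)) F
    with hG
  have hGhom : G.IsHomogeneous 3 := by
    have := hF.aeval (fun i => ∑ a, (C (B i a) * X a : MvPolynomial (Fin 4) K)) (n := 1) (by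
      intro i
      apply IsHomogeneous.sum
      intro a _
      exact isHomogeneous_C_mul_X _ _)
    rw [one_mul] at this
    exact this
  obtain ⟨T, hT⟩ := exists_T G hGhom
  have hGev : ∀ (A : Type u) [CommRing A] [Algebra K A] (P : Fin 4 → A),
      aeval (fun i => ∑ a, algebraMap K A (B i a) * P a) F
        = ∑ i, ∑ j, ∑ k, algebraMap K A (T i j k) * P i * P j * P k := by
    intro A _ _ P
    have h1 : aeval P G = aeval (fun i => ∑ a, algebraMap K A (B i a) * P a) F := by
      rw [hG, ← AlgHom.comp_apply, comp_aeval]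
      congr 2
      funext i
      simp [algHom_C]
    rw [← h1, hT]
    simp [algHom_C]
  -- conditions
  have cond : ∀ a : Fin 4, a ≠ 3 → T 3 3 3 = 0 ∧ T a 3 3 + T 3 a 3 + T 3 3 a
      = ∑ l, B l a * eval x (pderiv l F) := by
    intro a ha
    obtain ⟨v, hv⟩ : ∃ v : Fin 4 → K, v = fun i => if i = 3 then 1 else 0 := ⟨_, rfl⟩
    obtain ⟨w, hw⟩ : ∃ w : Fin 4 → K, w = fun i => if i = a then 1 else 0 := ⟨_, rfl⟩
    have key := hGev (Polynomial K) (fun i => Polynomial.C (v i) + Polynomial.C (w i) * Polynomial.X)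
    have hlhs : (fun i => ∑ b, algebraMap K (Polynomial K) (B i b)
        * (Polynomial.C (v b) + Polynomial.C (w b) * Polynomial.X))
        = fun i => Polynomial.C (x i) + Polynomial.C (B i a) * Polynomial.X := by
      funext i
      have e1 : ∑ b, B i b * v b = x i := by rw [hv, ← hB3]; simp
      have e2 : ∑ b, B i b * w b = B i a := by rw [hw]; simp
      rw [← e1, ← e2, map_sum, map_sum, Finset.sum_mul, ← Finset.sum_add_distrib]
      refine Finset.sum_congr rfl fun b _ => ?_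
      rw [Polynomial.algebraMap_eq, Polynomial.C_mul, Polynomial.C_mul]
      ring
    rw [hlhs] at key
    obtain ⟨l1, l2⟩ := line_deriv (L := K) x (fun i => B i a) F
    simp only [aeval_eq_eval] at l1 l2
    rw [key] at l1 l2
    have h := l1.trans hFx
    have h33 : (∑ i, ∑ j, ∑ k, algebraMap K (Polynomial K) (T i j k)
          * (Polynomial.C (v i) + Polynomial.C (w i) * Polynomial.X)
          * (Polynomial.C (v j) + Polynomial.C (w j) * Polynomial.X)
          * (Polynomial.C (v k) + Polynomial.C (w k) * Polynomial.X)).eval 0 = T 3 3 3 := by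
      simp only [Polynomial.eval_finsetSum, Polynomial.eval_add, Polynomial.eval_mul,
        Polynomial.algebraMap_eq, Polynomial.eval_C, Polynomial.eval_X]
      simp [hv]
    refine ⟨h33.symm.trans h, ?_⟩
    refine Eq.trans ?_ l2
    simp only [Polynomial.derivative_sum, Polynomial.eval_finsetSum, Polynomial.derivative_mul,
      Polynomial.eval_add, Polynomial.eval_mul, Polynomial.algebraMap_eq, Polynomial.derivative_C,
      Polynomial.derivative_add, Polynomial.derivative_X, Polynomial.eval_C, Polynomial.eval_X,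
      Polynomial.eval_zero, Polynomial.eval_one]
    simp only [Fin.sum_univ_four, hv, hw]
    fin_cases a
    · simp
      try ring
    · simp
      try ring
    · simp
      try ring
    · exact absurd rfl ha
  have t3 := (cond 0 (by decide)).1
  have c0 := (cond 0 (by decide)).2.trans h0
  have c1 := (cond 1 (by decide)).2.trans h1
  have c2 := (cond 2 (by decide)).2.trans h2
  refine ⟨![T 0 0 3 + T 0 3 0 + T 3 0 0,
      T 0 1 3 + T 0 3 1 + T 1 0 3 + T 1 3 0 + T 3 0 1 + T 3 1 0,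
      T 1 1 3 + T 1 3 1 + T 3 1 1,
      T 0 2 3 + T 0 3 2 + T 2 0 3 + T 2 3 0 + T 3 0 2 + T 3 2 0,
      T 1 2 3 + T 1 3 2 + T 2 1 3 + T 2 3 1 + T 3 1 2 + T 3 2 1,
      T 2 2 3 + T 2 3 2 + T 3 2 2],
    ![T 0 0 0, T 0 0 1 + T 0 1 0 + T 1 0 0, T 0 1 1 + T 1 0 1 + T 1 1 0, T 1 1 1,
      T 0 0 2 + T 0 2 0 + T 2 0 0,
      T 0 1 2 + T 0 2 1 + T 1 0 2 + T 1 2 0 + T 2 0 1 + T 2 1 0,
      T 1 1 2 + T 1 2 1 + T 2 1 1,
      T 0 2 2 + T 2 0 2 + T 2 2 0, T 1 2 2 + T 2 1 2 + T 2 2 1, T 2 2 2], ?_⟩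
  intro A _ _ P
  rw [hGev A P]
  have e3 := congrArg (algebraMap K A) t3
  have e0 := congrArg (algebraMap K A) c0
  have e1 := congrArg (algebraMap K A) c1
  have e2 := congrArg (algebraMap K A) c2
  simp only [map_add, map_zero, map_one] at e3 e0 e1 e2
  simp only [nf, c3, Fin.sum_univ_four, Matrix.cons_val, map_add]
  linear_combination P 3 ^ 3 * e3 + P 0 * P 3 ^ 2 * e0 + P 1 * P 3 ^ 2 * e1 + P 2 * P 3 ^ 2 * e2

end Part14

section Part15

open Polynomial

theorem nf_smul {A : Type*} [CommRing A] (q : Fin 6 → A) (c : Fin 10 → A) (P : Fin 4 → A) (a : A) :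
    nf q c (fun i => a * P i) = a ^ 3 * nf q c P := by
  simp only [nf, c3]
  ring

/-- remove the common factor -/
theorem primitive {K L : Type*} [Field K] [Field L] [Algebra K L] (q : Fin 6 → K) (c : Fin 10 → K)
    (h : Has K L q c) :
    ∃ P : Fin 4 → K[X], nf (fun i => C (q i)) (fun i => C (c i)) P = 0 ∧
      (∃ a : Fin 4 → K[X], ∑ i, a i * P i = 1) ∧
      ∃ τ : L, (∀ i, i ≠ 3 → aeval τ (P i) = 0) ∧ aeval τ (P 3) ≠ 0 ∧ ∃ i, i ≠ 3 ∧ P i ≠ 0 := by
  obtain ⟨P, hP, τ, h1, h2, i0, hi0, hPi0⟩ := h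
  set I : Ideal K[X] := Ideal.span (Set.range P) with hI
  set g : K[X] := Submodule.IsPrincipal.generator I with hg
  have hgI : g ∈ I := Submodule.IsPrincipal.generator_mem I
  have hdiv : ∀ i, g ∣ P i := by
    intro i
    rw [hg, ← Submodule.IsPrincipal.mem_iff_generator_dvd]
    exact Ideal.subset_span ⟨i, rfl⟩
  choose Q hQ using hdiv
  have hg0 : g ≠ 0 := by
    intro h
    apply hPi0
    rw [hQ i0, h, zero_mul]
  rw [hI, Ideal.mem_span_range_iff_exists_fun] at hgI
  obtain ⟨a, ha⟩ := hgI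
  have hgτ : aeval τ g ≠ 0 := by
    intro h
    apply h2
    rw [hQ 3, map_mul, h, zero_mul]
  refine ⟨Q, ?_, ⟨a, ?_⟩, τ, ?_, ?_, i0, hi0, ?_⟩
  · have h3 : nf (fun i => C (q i)) (fun i => C (c i)) (fun i => g * Q i) = 0 := by
      rw [← hP]; congr 1; funext i; exact (hQ i).symm
    rw [nf_smul] at h3
    exact (mul_eq_zero.mp h3).resolve_left (pow_ne_zero _ hg0)
  · apply mul_left_cancel₀ hg0
    rw [mul_one, Finset.mul_sum]
    conv_rhs => rw [← ha]
    refine Finset.sum_congr rfl fun i _ => ?_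
    conv_rhs => rw [hQ i]
    ring
  · intro i hi
    have := h1 i hi
    rw [hQ i, map_mul] at this
    exact (mul_eq_zero.mp this).resolve_left hgτ
  · intro h
    apply h2
    rw [hQ 3, map_mul, h, mul_zero]
  · intro h
    apply hPi0
    rw [hQ i0, h, mul_zero]

/-- homogenization in degree `d` -/
noncomputable def hom {K : Type*} [Field K] (d : ℕ) (p : K[X]) : MvPolynomial (Fin 2) K :=
  ∑ j ∈ Finset.range (d + 1),
    MvPolynomial.C (p.coeff j) * (MvPolynomial.X 0 ^ j * MvPolynomial.X 1 ^ (d - j))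

theorem hom_isHomogeneous {K : Type*} [Field K] (d : ℕ) (p : K[X]) :
    (hom d p).IsHomogeneous d := by
  unfold hom
  apply MvPolynomial.IsHomogeneous.sum
  intro j hj
  rw [Finset.mem_range] at hj
  have h1 : (MvPolynomial.X (R := K) (0 : Fin 2) ^ j).IsHomogeneous j :=
    MvPolynomial.isHomogeneous_X_pow _ _
  have h2 : (MvPolynomial.X (R := K) (1 : Fin 2) ^ (d - j)).IsHomogeneous (d - j) :=
    MvPolynomial.isHomogeneous_X_pow _ _
  have h3 := (h1.mul h2).C_mul (p.coeff j)
  have : j + (d - j) = d := by omega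
  rwa [this] at h3

theorem hom_eval {K L : Type*} [Field K] [Field L] [Algebra K L] (d : ℕ) (p : K[X])
    (hp : p.natDegree ≤ d) (v : Fin 2 → L) (hv : v 1 ≠ 0) :
    MvPolynomial.aeval v (hom d p) = v 1 ^ d * aeval (v 0 / v 1) p := by
  unfold hom
  rw [aeval_eq_sum_range' (Nat.lt_succ_of_le hp), Finset.mul_sum, map_sum]
  refine Finset.sum_congr rfl fun j hj => ?_
  rw [Finset.mem_range] at hj
  simp only [map_mul, map_pow, MvPolynomial.aeval_X, MvPolynomial.algHom_C, Algebra.smul_def]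
  have : v 1 ^ d = v 1 ^ j * v 1 ^ (d - j) := by rw [← pow_add]; congr 1; omega
  rw [this, div_pow]
  field_simp

theorem hom_eval_inf {K L : Type*} [Field K] [Field L] [Algebra K L] (d : ℕ) (p : K[X])
    (v : Fin 2 → L) (hv : v 1 = 0) :
    MvPolynomial.aeval v (hom d p) = algebraMap K L (p.coeff d) * v 0 ^ d := by
  unfold hom
  rw [map_sum, Finset.sum_eq_single d]
  · simp [MvPolynomial.algHom_C]
  · intro j hj hjd
    rw [Finset.mem_range] at hj
    have : d - j ≠ 0 := by omega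
    simp [hv, this]
  · intro h; exfalso; apply h; simp

end Part15

section Part16

/-- Let `K` be a finite field, `F` a homogeneous cubic form in four variables over `K` whose zero
surface `X` in projective 3-space is smooth (Jacobian criterion over an algebraic closure), and let
`x` be a `K`-rational point of `X`. Then there are `d > 0` and four binary forms `f i` of degree `d`
over `K` without a common zero on the projective line over the algebraic closure, i.e. a nonconstant
morphism from the projective line to projective 3-space defined over `K`, whose image lies in `X`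
and contains `x`. -/
theorem result {K : Type u} [Field K] [Finite K] (F : MvPolynomial (Fin 4) K)
    (hF : F.IsHomogeneous 3)
    (hsmooth : ∀ v : Fin 4 → AlgebraicClosure K, v ≠ 0 → MvPolynomial.aeval v F = 0 →
      ∃ i, MvPolynomial.aeval v (MvPolynomial.pderiv i F) ≠ 0)
    (x : Fin 4 → K) (hx : x ≠ 0) (hxF : MvPolynomial.eval x F = 0) :
    ∃ (d : ℕ) (f : Fin 4 → MvPolynomial (Fin 2) K),
      0 < d ∧ (∀ i, (f i).IsHomogeneous d) ∧
      (∀ p : Fin 2 → AlgebraicClosure K, p ≠ 0 → ∃ i, MvPolynomial.aeval p (f i) ≠ 0) ∧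
      MvPolynomial.bind₁ f F = 0 ∧
      ∃ p : Fin 2 → AlgebraicClosure K, p ≠ 0 ∧ ∃ c : AlgebraicClosure K, c ≠ 0 ∧
        ∀ i, MvPolynomial.aeval p (f i) = c * algebraMap K (AlgebraicClosure K) (x i) := by
  classical
  obtain ⟨L, hL⟩ : ∃ L, L = AlgebraicClosure K := ⟨_, rfl⟩
  set g : Fin 4 → K := fun i => MvPolynomial.eval x (MvPolynomial.pderiv i F) with hg
  have hev : ∀ p : MvPolynomial (Fin 4) K,
      MvPolynomial.aeval (fun i => algebraMap K (AlgebraicClosure K) (x i)) p
        = algebraMap K (AlgebraicClosure K) (MvPolynomial.eval x p) := by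
    intro p
    rw [← MvPolynomial.aeval_eq_eval]
    exact MvPolynomial.aeval_algebraMap_apply (AlgebraicClosure K) x p
  have hg0 : g ≠ 0 := by
    obtain ⟨i, hi⟩ := hsmooth (fun i => algebraMap K (AlgebraicClosure K) (x i)) (by
        intro h
        apply hx
        funext i
        have := congrFun h i
        simpa using this) (by rw [hev, hxF, map_zero])
    rw [hev] at hi
    intro h
    apply hi
    have : g i = 0 := by rw [h]; rfl
    rw [hg] at this
    simp only at this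
    rw [this, map_zero]
  have hgx : ∑ i, g i * x i = 0 := by
    have := hF.sum_X_mul_pderiv
    have := congrArg (MvPolynomial.eval x) this
    simp only [map_sum, map_mul, MvPolynomial.eval_X, nsmul_eq_mul, hxF, mul_zero] at this
    rw [← this]
    refine Finset.sum_congr rfl fun i _ => ?_
    rw [hg]; ring
  obtain ⟨B, B', hBB', hB'B, hB3, hb0, hb1, hb2⟩ := exists_basis g x hg0 hx hgx
  obtain ⟨q, c, hnf⟩ := exists_nf F hF (fun i a => B i a) x hB3 hxF
    (by rw [← hb0]; exact Finset.sum_congr rfl fun i _ => mul_comm _ _)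
    (by rw [← hb1]; exact Finset.sum_congr rfl fun i _ => mul_comm _ _)
    (by rw [← hb2]; exact Finset.sum_congr rfl fun i _ => mul_comm _ _)
  -- the linear map over an algebra
  have hBB1 : ∀ i j, ∑ a, B i a * B' a j = if i = j then 1 else 0 := by
    intro i j
    have := congrFun (congrFun hBB' i) j
    rwa [Matrix.mul_apply, Matrix.one_apply] at this
  have hBB2 : ∀ i j, ∑ a, B' i a * B a j = if i = j then 1 else 0 := by
    intro i j
    have := congrFun (congrFun hB'B i) j
    rwa [Matrix.mul_apply, Matrix.one_apply] at this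
  have hinj : ∀ (v : Fin 4 → AlgebraicClosure K),
      (∀ i, ∑ a, algebraMap K (AlgebraicClosure K) (B i a) * v a = 0) → v = 0 := by
    intro v hv
    funext j
    have h1 : ∑ i, algebraMap K (AlgebraicClosure K) (B' j i)
        * ∑ a, algebraMap K (AlgebraicClosure K) (B i a) * v a = v j := by
      simp only [Finset.mul_sum]
      rw [Finset.sum_comm]
      have h2 : ∀ a, ∑ i, algebraMap K (AlgebraicClosure K) (B' j i)
          * (algebraMap K (AlgebraicClosure K) (B i a) * v a)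
          = algebraMap K (AlgebraicClosure K) (if j = a then 1 else 0) * v a := by
        intro a
        rw [← hBB2 j a, map_sum, Finset.sum_mul]
        refine Finset.sum_congr rfl fun i _ => ?_
        rw [map_mul]; ring
      rw [Finset.sum_congr rfl fun a _ => h2 a]
      simp
    rw [← h1]
    simp [hv]
  have hsurj : ∀ (w : Fin 4 → AlgebraicClosure K), ∃ v : Fin 4 → AlgebraicClosure K,
      ∀ i, ∑ a, algebraMap K (AlgebraicClosure K) (B i a) * v a = w i := by
    intro w
    refine ⟨fun a => ∑ j, algebraMap K (AlgebraicClosure K) (B' a j) * w j, ?_⟩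
    intro i
    simp only [Finset.mul_sum]
    rw [Finset.sum_comm]
    have h2 : ∀ j, ∑ a, algebraMap K (AlgebraicClosure K) (B i a)
        * (algebraMap K (AlgebraicClosure K) (B' a j) * w j)
        = algebraMap K (AlgebraicClosure K) (if i = j then 1 else 0) * w j := by
      intro j
      rw [← hBB1 i j, map_sum, Finset.sum_mul]
      refine Finset.sum_congr rfl fun a _ => ?_
      rw [map_mul]; ring
    rw [Finset.sum_congr rfl fun j _ => h2 j]
    simp
  have hHas : Has K (AlgebraicClosure K) q c := by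
    apply main_nf
    intro v hv hnfv
    obtain ⟨i, hi⟩ := hsmooth (fun i => ∑ a, algebraMap K (AlgebraicClosure K) (B i a) * v a)
      (by
        intro h
        exact hv (hinj v fun i => congrFun h i))
      (by rw [hnf (AlgebraicClosure K) v]; exact hnfv)
    obtain ⟨u, hu⟩ := hsurj (fun j => if j = i then 1 else 0)
    refine ⟨u, ?_⟩
    rw [← dnf_line]
    have h1 := hnf (Polynomial (AlgebraicClosure K))
      (fun a => Polynomial.C (v a) + Polynomial.C (u a) * Polynomial.X)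
    have h2 : (fun i => ∑ a, algebraMap K (Polynomial (AlgebraicClosure K)) (B i a)
        * (Polynomial.C (v a) + Polynomial.C (u a) * Polynomial.X))
        = fun j => Polynomial.C (∑ a, algebraMap K (AlgebraicClosure K) (B j a) * v a)
          + Polynomial.C (if j = i then (1 : AlgebraicClosure K) else 0) * Polynomial.X := by
      funext j
      rw [← hu j, map_sum, map_sum, Finset.sum_mul, ← Finset.sum_add_distrib]
      refine Finset.sum_congr rfl fun a _ => ?_
      rw [Polynomial.C_mul, Polynomial.C_mul, Polynomial.algebraMap_apply]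
      ring
    rw [h2] at h1
    have h3 := (line_deriv (K := K) (L := AlgebraicClosure K)
      (fun j => ∑ a, algebraMap K (AlgebraicClosure K) (B j a) * v a)
      (fun j => if j = i then (1 : AlgebraicClosure K) else 0) F).2
    rw [h1] at h3
    have h4 : (fun i => algebraMap K (Polynomial (AlgebraicClosure K)) (q i))
        = fun i => Polynomial.C (algebraMap K (AlgebraicClosure K) (q i)) := by
      funext i; rw [Polynomial.algebraMap_apply]
    have h5 : (fun i => algebraMap K (Polynomial (AlgebraicClosure K)) (c i))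
        = fun i => Polynomial.C (algebraMap K (AlgebraicClosure K) (c i)) := by
      funext i; rw [Polynomial.algebraMap_apply]
    rw [h4, h5] at h3
    rw [h3]
    simpa using hi
  obtain ⟨P, hP, ⟨a, ha⟩, τ, hτ, hτ3, i0, hi0, hPi0⟩ := primitive q c hHas
  -- degree
  obtain ⟨m, -, hm⟩ := Finset.exists_max_image Finset.univ (fun i => (P i).natDegree)
    Finset.univ_nonempty
  set d := (P m).natDegree with hd
  have hle : ∀ i, (P i).natDegree ≤ d := fun i => hm i (Finset.mem_univ i)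
  have hdpos : 0 < d := by
    refine lt_of_lt_of_le ?_ (hle i0)
    by_contra h
    have h1 : (P i0).natDegree = 0 := by omega
    obtain ⟨b, hb⟩ := Polynomial.natDegree_eq_zero.mp h1
    have h2 := hτ i0 hi0
    rw [← hb, Polynomial.aeval_C, map_eq_zero] at h2
    apply hPi0
    rw [← hb, h2, map_zero]
  set H : Fin 4 → MvPolynomial (Fin 2) K := fun i => hom d (P i) with hH
  have hHnf : nf (fun i => algebraMap K (MvPolynomial (Fin 2) K) (q i))
      (fun i => algebraMap K (MvPolynomial (Fin 2) K) (c i)) H = 0 := by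
    have hX : (MvPolynomial.X 1 : MvPolynomial (Fin 2) K) ≠ 0 := MvPolynomial.X_ne_zero 1
    refine (mul_eq_zero.mp ?_).resolve_left hX
    have hminj := MvPolynomial.map_injective (σ := Fin 2) (algebraMap K (AlgebraicClosure K))
      (algebraMap K (AlgebraicClosure K)).injective
    apply hminj
    rw [map_zero]
    apply MvPolynomial.funext
    intro p
    rw [map_zero, MvPolynomial.eval_map, ← MvPolynomial.aeval_def, map_mul, MvPolynomial.aeval_X]
    by_cases hp : p 1 = 0
    · rw [hp, zero_mul]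
    · have h1 := map_nf (MvPolynomial.aeval (R := K) p : MvPolynomial (Fin 2) K →+* AlgebraicClosure K)
        (fun i => algebraMap K (MvPolynomial (Fin 2) K) (q i))
        (fun i => algebraMap K (MvPolynomial (Fin 2) K) (c i)) H
      have h2 := map_nf (Polynomial.aeval (R := K) (p 0 / p 1) : Polynomial K →+* AlgebraicClosure K)
        (fun i => Polynomial.C (q i)) (fun i => Polynomial.C (c i)) P
      rw [hP, map_zero] at h2
      simp only [RingHom.coe_coe, Polynomial.aeval_C] at h2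
      simp only [RingHom.coe_coe, AlgHom.commutes] at h1
      rw [h1]
      have h3 : (fun i => MvPolynomial.aeval p (H i))
          = fun i => p 1 ^ d * Polynomial.aeval (p 0 / p 1) (P i) := by
        funext i
        exact hom_eval d (P i) (hle i) p hp
      rw [h3, nf_smul, ← h2]
      ring
  set f : Fin 4 → MvPolynomial (Fin 2) K :=
    fun i => ∑ a, algebraMap K (MvPolynomial (Fin 2) K) (B i a) * H a with hf
  have hfev : ∀ (p : Fin 2 → AlgebraicClosure K) i, MvPolynomial.aeval p (f i)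
      = ∑ a, algebraMap K (AlgebraicClosure K) (B i a) * MvPolynomial.aeval p (H a) := by
    intro p i
    simp only [hf, map_sum, map_mul, AlgHom.commutes]
  refine ⟨d, f, hdpos, ?_, ?_, ?_, ![τ, 1], ?_, Polynomial.aeval τ (P 3), hτ3, ?_⟩
  · intro i
    apply MvPolynomial.IsHomogeneous.sum
    intro a _
    exact (hom_isHomogeneous d (P a)).C_mul (B i a)
  · intro p hp
    by_contra hcon
    push Not at hcon
    have h0 := hinj (fun a => MvPolynomial.aeval p (H a)) (by
      intro i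
      rw [← hfev, hcon i])
    by_cases hp1 : p 1 = 0
    · have hp0 : p 0 ≠ 0 := by
        intro h
        apply hp
        funext i
        fin_cases i
        · exact h
        · exact hp1
      have h1 := congrFun h0 m
      simp only [hH] at h1
      rw [hom_eval_inf d (P m) p hp1] at h1
      have h2 := (mul_eq_zero.mp h1).resolve_right (pow_ne_zero _ hp0)
      rw [map_eq_zero] at h2
      have h3 : P m ≠ 0 := by
        intro h
        rw [hd, h, Polynomial.natDegree_zero] at hdpos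
        exact lt_irrefl _ hdpos
      exact h3 (Polynomial.leadingCoeff_eq_zero.mp h2)
    · have h1 : ∀ i, Polynomial.aeval (p 0 / p 1) (P i) = 0 := by
        intro i
        have h2 := congrFun h0 i
        simp only [hH] at h2
        rw [hom_eval d (P i) (hle i) p hp1] at h2
        exact (mul_eq_zero.mp h2).resolve_left (pow_ne_zero _ hp1)
      have h2 := congrArg (Polynomial.aeval (p 0 / p 1)) ha
      simp only [map_sum, map_mul, h1, mul_zero, Finset.sum_const_zero, map_one] at h2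
      exact zero_ne_one h2
  · show MvPolynomial.aeval f F = 0
    rw [hf, hnf (MvPolynomial (Fin 2) K) H, hHnf]
  · intro h
    have := congrFun h 1
    simp at this
  · intro i
    rw [hfev]
    have h1 : ∀ a, MvPolynomial.aeval ![τ, 1] (H a) = Polynomial.aeval τ (P a) := by
      intro a
      simp only [hH]
      rw [hom_eval d (P a) (hle a) ![τ, 1] (by simp)]
      simp
    rw [Finset.sum_eq_single 3]
    · rw [h1, hB3]; ring
    · intro a _ ha
      rw [h1, hτ a ha, mul_zero]
    · simp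

end Part16

end Pool.Agent.Results.MP_4f7796_ag.RationalCurveThroughPoint
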